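import Pool.Agent.Oad.Defs

/-!
Calibrated plane fields: comass, nondegeneracy (definitions)
-/

set_option autoImplicit false

namespace Pool.Agent.Oae

open MeasureTheory Set Matrix Pool.Agent.Oad
open scoped ContDiff

/-- `X` is a real 2-form, given by its components `X a b` in an orthonormal frame -/
def Asym {q : ℕ} (X : Fin (q + 5) → Fin (q + 5) → ℝ) : Prop := ∀ a b, X b a = -X a b

/-- the inner product of 2-forms -/
noncomputable def ip {q : ℕ} (X Y : Fin (q + 5) → Fin (q + 5) → ℝ) : ℝ :=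
  (1 / 2) * ∑ a, ∑ b, X a b * Y a b

/-- the coefficient of the volume form in `O ∧ X ∧ Y`, for a `(q + 1)`-form `O` and 2-forms -/
noncomputable def tri {q : ℕ} (O : (Fin (q + 1) → Fin (q + 5)) → ℝ)
    (X Y : Fin (q + 5) → Fin (q + 5) → ℝ) : ℝ :=
  (1 / (4 * (Nat.factorial (q + 1) : ℝ))) * ∑ s : Equiv.Perm (Fin (q + 5)),
    sg s * (O (fun r => s (hd r)) * (X (s (tl 0)) (s (tl 1)) * Y (s (tl 2)) (s (tl 3))))

/-- `X` is an anti-self-dual 2-form on the span `P` of the last four frame vectors -/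
def IsASDForm {q : ℕ} (X : Fin (q + 5) → Fin (q + 5) → ℝ) : Prop :=
  Asym X ∧ (∀ r b, X (hd r) b = 0) ∧ X (tl 2) (tl 3) = -X (tl 0) (tl 1) ∧
    X (tl 3) (tl 1) = -X (tl 0) (tl 2) ∧ X (tl 1) (tl 2) = -X (tl 0) (tl 3)

/-- the components of `Ω` in the frame `e` at `x` -/
noncomputable def cmp {q : ℕ} (e : Fin (q + 5) → E q → E q) (Ω : E q → Form q (q + 1))
    (x : E q) (b : Fin (q + 1) → Fin (q + 5)) : ℝ :=
  Ω x (fun r => e (b r) x)

/-- the comass of `Ω` at `x` is at most `1` -/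
def ComassLe {q : ℕ} (e : Fin (q + 5) → E q → E q) (Ω : E q → Form q (q + 1)) (x : E q) : Prop :=
  ∀ c : Fin (q + 1) → Fin (q + 5) → ℝ, (∀ r, ∑ a, c r a ^ 2 ≤ 1) →
    Ω x (fun r => ∑ a, c r a • e a x) ≤ 1

/-- `Ω` calibrates the span `N` of the first `q + 1` frame vectors at `x` -/
def Calib {q : ℕ} (e : Fin (q + 5) → E q → E q) (Ω : E q → Form q (q + 1)) (x : E q) : Prop :=
  Ω x (fun r => e (hd r) x) = 1

/-- `|W|^2 + (O ∧ W ∧ W) > 0` for all 2-forms `W ≠ 0` orthogonal to the anti-self-dual 2-forms on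
the span of the last four frame vectors -/
def NondegO {q : ℕ} (O : (Fin (q + 1) → Fin (q + 5)) → ℝ) : Prop :=
  ∀ W : Fin (q + 5) → Fin (q + 5) → ℝ, Asym W → (∀ X, IsASDForm X → ip W X = 0) →
    W ≠ 0 → 0 < ip W W + tri O W W

/-- the span `N` of the first `q + 1` frame vectors is the only oriented plane calibrated by `Ω`
at `x` -/
def OnlyPlane {q : ℕ} (e : Fin (q + 5) → E q → E q) (Ω : E q → Form q (q + 1)) (x : E q) :
    Prop :=
  ∀ c : Fin (q + 1) → Fin (q + 5) → ℝ,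
    (∀ r r', ∑ a, c r a * c r' a = if r = r' then 1 else 0) →
    Ω x (fun r => ∑ a, c r a • e a x) = 1 → ∀ r j, c r (tl j) = 0

/-- the equation `⋆X + O ∧ X = 0` for a real 2-form `X`, in components -/
def Eqn {q : ℕ} (O : (Fin (q + 1) → Fin (q + 5)) → ℝ) (X : Fin (q + 5) → Fin (q + 5) → ℝ) :
    Prop :=
  ∀ s : Equiv.Perm (Fin (q + 5)), sg s • X (s (tl 2)) (s (tl 3)) +
    wd O X (fun r => s (md r)) = 0

/-- The condition on `Ω` at `x`: either no 2-form `X ≠ 0` solves `⋆X + Ω ∧ X = 0`, or `Ω(N) = 1` and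
`Ω` is nondegenerate, or `Ω(N) = 1`, the dimension is `m = 6`, the comass of `Ω` is at most `1` and
`N` is the only calibrated plane. -/
def Good {q : ℕ} (e : Fin (q + 5) → E q → E q) (Ω : E q → Form q (q + 1)) (x : E q) : Prop :=
  (∀ X, Asym X → Eqn (cmp e Ω x) X → X = 0) ∨
    (Calib e Ω x ∧ (NondegO (cmp e Ω x) ∨ (q = 1 ∧ ComassLe e Ω x ∧ OnlyPlane e Ω x)))

/-- There is a smooth form `Ω'` on `U`, decomposable at every point, such that every solution `X`
of `⋆X + Ω ∧ X = 0` at a point of `U` solves `⋆X + Ω' ∧ X = 0`. -/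
def Dominated {q : ℕ} (U : Set (E q)) (e : Fin (q + 5) → E q → E q)
    (Ω : E q → Form q (q + 1)) : Prop :=
  ∃ Ω' : E q → Form q (q + 1), ContDiffOn ℝ ∞ Ω' U ∧ IsDecomposable U Ω' ∧
    ∀ x ∈ U, ∀ X, Asym X → Eqn (cmp e Ω x) X → Eqn (cmp e Ω' x) X

end Pool.Agent.Oae
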