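import Pool.Agent.Oae.Lin

/-!
Dimension six: if `N` is the only plane calibrated by the 2-form `Ω`, then `Ω` is nondegenerate
-/

set_option autoImplicit false

namespace Pool.Agent.Oae

open MeasureTheory Set Matrix Pool.Agent.Oad
open scoped ContDiff

/-- `B < 1` on the orthonormal pairs of `ℝ^4` -/
def Lt1 (B : Fin 4 → Fin 4 → ℝ) : Prop :=
  ∀ c d : Fin 4 → ℝ, ∑ i, c i ^ 2 = 1 → ∑ i, d i ^ 2 = 1 → ∑ i, c i * d i = 0 →
    ∑ i, ∑ j, c i * d j * B i j < 1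

/-- `B ∧ u ∧ v` on `ℝ^4` -/
def s4 (B : Fin 4 → Fin 4 → ℝ) (u v : Fin 4 → ℝ) : ℝ :=
  B 0 1 * (u 2 * v 3 - u 3 * v 2) - B 0 2 * (u 1 * v 3 - u 3 * v 1) +
    B 0 3 * (u 1 * v 2 - u 2 * v 1) + B 1 2 * (u 0 * v 3 - u 3 * v 0) -
    B 1 3 * (u 0 * v 2 - u 2 * v 0) + B 2 3 * (u 0 * v 1 - u 1 * v 0)

/-- the pair `(a, b)` -/
def pr (a b : Fin (1 + 5)) : Fin (1 + 1) → Fin (1 + 5) := fun r => if r = 0 then a else b

/-- `A ∧ X ∧ Y` for 2-forms on `ℝ^6` -/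
noncomputable def T6 (A X Y : Fin (1 + 5) → Fin (1 + 5) → ℝ) : ℝ :=
  (1 / 8) * ∑ s : Equiv.Perm (Fin (1 + 5)),
    sg s * (A (s 0) (s 1) * (X (s 2) (s 3) * Y (s 4) (s 5)))

/-- `A a b ≠ 0` only if exactly `k` of the indices `a`, `b` are one of the first two -/
def Ty (k : ℕ) (A : Fin (1 + 5) → Fin (1 + 5) → ℝ) : Prop :=
  ∀ a b, A a b ≠ 0 → (if a.1 < 2 then 1 else 0) + (if b.1 < 2 then 1 else 0) = k

-- BEGIN pbd
/-- extension by `0` -/
private def pbd_v (c : Fin 4 → ℝ) : Fin (1 + 5) → ℝ :=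
  fun a => if h : 2 ≤ a.1 then c ⟨a.1 - 2, by omega⟩ else 0

private theorem pbd_sum {M : Type} [AddCommMonoid M] (f : Fin (1 + 5) → M)
    (h0 : f 0 = 0) (h1 : f 1 = 0) : ∑ a, f a = ∑ i : Fin 4, f (tl i) := by
  have e : ∑ a : Fin 6, f a = ∑ a : Fin (1 + 5), f a := rfl
  rw [← e, Fin.sum_univ_six, Fin.sum_univ_four]
  have h0' : f (0 : Fin 6) = 0 := h0
  have h1' : f (1 : Fin 6) = 0 := h1
  rw [h0', h1', zero_add, zero_add]
  rfl

private theorem pbd_tl (c : Fin 4 → ℝ) (i : Fin 4) : pbd_v c (tl i) = c i := by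
  have h : 2 ≤ (tl (q := 1) i).1 := by
    simp [tl]
  unfold pbd_v
  rw [dif_pos h]
  congr 1
  apply Fin.ext
  simp [tl]

private theorem pbd_zero (c : Fin 4 → ℝ) : pbd_v c 0 = 0 ∧ pbd_v c 1 = 0 := by
  constructor
  · unfold pbd_v
    rw [dif_neg]
    decide
  · unfold pbd_v
    rw [dif_neg]
    decide

private theorem pbd_expand (W : Form 1 (1 + 1)) (w : Fin 4 → E 1) (c d : Fin 4 → ℝ) :
    W (fun r => if r = 0 then ∑ i, c i • w i else ∑ i, d i • w i) =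
      ∑ i, ∑ j, c i * d j * W (fun r => if r = 0 then w i else w j) := by
  have e0 : (fun r : Fin (1 + 1) => if r = 0 then ∑ i, c i • w i else ∑ i, d i • w i) =
      fun r : Fin (1 + 1) => ∑ i, (if r = 0 then c i else d i) • w i := by
    funext r
    by_cases h : r = 0 <;> simp [h]
  rw [e0, ContinuousAlternatingMap.map_sum]
  have e1 : ∀ ρ : Fin (1 + 1) → Fin 4,
      W (fun r => (if r = 0 then c (ρ r) else d (ρ r)) • w (ρ r)) =
        c (ρ 0) * d (ρ 1) * W (fun r => if r = 0 then w (ρ 0) else w (ρ 1)) := by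
    intro ρ
    rw [ContinuousAlternatingMap.map_smul_univ]
    have e2 : ∏ i : Fin (1 + 1), (if i = 0 then c (ρ i) else d (ρ i)) = c (ρ 0) * d (ρ 1) := by
      have : (∏ i : Fin 2, (if i = 0 then c (ρ i) else d (ρ i))) = c (ρ 0) * d (ρ 1) := by
        rw [Fin.prod_univ_two]
        simp
      exact this
    rw [e2, smul_eq_mul]
    congr 2
    funext r
    by_cases h : r = 0
    · simp [h]
    · have h1 : r = 1 := by
        rcases r with ⟨r, hr⟩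
        rw [Fin.ext_iff] at h ⊢
        simp at h ⊢
        omega
      subst h1
      simp
  rw [Finset.sum_congr rfl fun ρ _ => e1 ρ]
  have e3 := Equiv.sum_comp (finTwoArrowEquiv (Fin 4))
    (fun p : Fin 4 × Fin 4 => c p.1 * d p.2 * W (fun r => if r = 0 then w p.1 else w p.2))
  rw [← Fintype.sum_prod_type' (f := fun i j => c i * d j *
    W (fun r => if r = 0 then w i else w j)), ← e3]
  rfl

/-- `hc` for `∑ c i e_(tl i)`, `∑ d j e_(tl j)` (vectors `fun r => if r = 0 then .. else ..`, coefficients `0` on `hd`) gives `≤ 1` (multilinear expansion of `Ω x` as a 2-form). If it were `1`, `ho` with the same coefficients would give `c = 0`, against `∑ c i ^ 2 = 1`. -/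
theorem pair_lt (e : Fin (1 + 5) → E 1 → E 1) (Ω : E 1 → Form 1 (1 + 1)) (x : E 1)
    (hc : ComassLe e Ω x) (ho : OnlyPlane e Ω x) :
    Lt1 (fun i j => cmp e Ω x (pr (tl i) (tl j))) := by
  intro c d hc1 hd1 hcd
  set C : Fin (1 + 1) → Fin (1 + 5) → ℝ := fun r a => if r = 0 then pbd_v c a else pbd_v d a
    with hC
  have hC0 : C 0 = pbd_v c := by funext a; simp [hC]
  have hC1 : C 1 = pbd_v d := by funext a; simp [hC]
  have hvec : (fun r => ∑ a, C r a • e a x) = fun r : Fin (1 + 1) =>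
      if r = 0 then ∑ i : Fin 4, c i • e (tl i) x else ∑ i : Fin 4, d i • e (tl i) x := by
    funext r
    by_cases h : r = 0
    · rw [if_pos h, h, hC0, pbd_sum _ (by rw [(pbd_zero c).1, zero_smul])
        (by rw [(pbd_zero c).2, zero_smul])]
      exact Finset.sum_congr rfl fun i _ => by rw [pbd_tl]
    · have h1 : r = 1 := by
        rcases r with ⟨r, hr⟩
        rw [Fin.ext_iff] at h ⊢
        simp at h ⊢
        omega
      rw [if_neg h, h1, hC1, pbd_sum _ (by rw [(pbd_zero d).1, zero_smul])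
        (by rw [(pbd_zero d).2, zero_smul])]
      exact Finset.sum_congr rfl fun i _ => by rw [pbd_tl]
  have hval : Ω x (fun r => ∑ a, C r a • e a x) =
      ∑ i, ∑ j, c i * d j * cmp e Ω x (pr (tl i) (tl j)) := by
    rw [hvec, pbd_expand (Ω x) (fun i => e (tl i) x) c d]
    refine Finset.sum_congr rfl fun i _ => Finset.sum_congr rfl fun j _ => ?_
    unfold cmp
    congr 2
    funext r
    unfold pr
    by_cases h : r = 0 <;> simp [h]
  have hip : ∀ f g : Fin 4 → ℝ, ∑ a, pbd_v f a * pbd_v g a = ∑ i, f i * g i := by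
    intro f g
    rw [pbd_sum _ (by rw [(pbd_zero f).1, zero_mul]) (by rw [(pbd_zero f).2, zero_mul])]
    exact Finset.sum_congr rfl fun i _ => by rw [pbd_tl, pbd_tl]
  have hsq : ∀ f : Fin 4 → ℝ, ∑ a, pbd_v f a ^ 2 = ∑ i, f i ^ 2 := by
    intro f
    have := hip f f
    simpa [sq] using this
  have hle := hc C (by
    intro r
    by_cases h : r = 0
    · rw [h, hC0, hsq, hc1]
    · have h1 : r = 1 := by
        rcases r with ⟨r, hr⟩
        rw [Fin.ext_iff] at h ⊢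
        simp at h ⊢
        omega
      rw [h1, hC1, hsq, hd1])
  rw [hval] at hle
  refine lt_of_le_of_ne hle ?_
  intro heq
  have hall := ho C (by
    intro r r'
    have hr : ∀ r : Fin (1 + 1), r = 0 ∨ r = 1 := by
      intro r
      rcases r with ⟨r, hr⟩
      rw [Fin.ext_iff, Fin.ext_iff]
      simp
      omega
    have h01 : (0 : Fin (1 + 1)) ≠ 1 := by decide
    rcases hr r with h | h <;> rcases hr r' with h' | h'
    · rw [h, h', hC0, hip, if_pos rfl, ← hc1]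
      exact Finset.sum_congr rfl fun i _ => by ring
    · rw [h, h', hC0, hC1, hip, if_neg h01, hcd]
    · rw [h, h', hC0, hC1, hip, if_neg h01.symm, ← hcd]
      exact Finset.sum_congr rfl fun i _ => by ring
    · rw [h, h', hC1, hip, if_pos rfl, ← hd1]
      exact Finset.sum_congr rfl fun i _ => by ring) (by rw [hval]; exact heq) 0
  have hz : ∀ i, c i = 0 := by
    intro i
    have := hall i
    rw [hC0, pbd_tl] at this
    exact this
  rw [Finset.sum_eq_zero fun i _ => by rw [hz i]; norm_num] at hc1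
  norm_num at hc1
-- END pbd

-- BEGIN sdl
/-- Put `b = (B 0 1 + B 2 3, B 0 2 - B 1 3, B 0 3 + B 1 2)`; for a unit vector `n` the pairs `(e_0, (0, n1, n2, n3))`, `(e_1, (-n1, 0, n3, -n2))`, `(e_2, (-n2, -n3, 0, n1))`, `(e_3, (-n3, n2, -n1, 0))` are orthonormal and the sum of the four values of `B` is `2 (n · b) < 4`; take `n = b / |b|` (if `b ≠ 0`). -/
theorem sd_lt (B : Fin 4 → Fin 4 → ℝ) (hB : ∀ i j, B j i = -B i j) (h : Lt1 B) :
    (B 0 1 + B 2 3) ^ 2 + (B 0 2 - B 1 3) ^ 2 + (B 0 3 + B 1 2) ^ 2 < 4 := by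
  obtain ⟨b1, hb1⟩ : ∃ b1, b1 = B 0 1 + B 2 3 := ⟨_, rfl⟩
  obtain ⟨b2, hb2⟩ : ∃ b2, b2 = B 0 2 - B 1 3 := ⟨_, rfl⟩
  obtain ⟨b3, hb3⟩ : ∃ b3, b3 = B 0 3 + B 1 2 := ⟨_, rfl⟩
  rw [← hb1, ← hb2, ← hb3]
  by_cases h0 : b1 ^ 2 + b2 ^ 2 + b3 ^ 2 = 0
  · rw [h0]
    norm_num
  have hpos : 0 < b1 ^ 2 + b2 ^ 2 + b3 ^ 2 :=
    lt_of_le_of_ne (by positivity) (Ne.symm h0)
  obtain ⟨r, hr⟩ : ∃ r, r = Real.sqrt (b1 ^ 2 + b2 ^ 2 + b3 ^ 2) := ⟨_, rfl⟩
  have hr0 : 0 < r := by rw [hr]; exact Real.sqrt_pos.2 hpos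
  have hr2 : r ^ 2 = b1 ^ 2 + b2 ^ 2 + b3 ^ 2 := by rw [hr]; exact Real.sq_sqrt hpos.le
  obtain ⟨n1, hn1⟩ : ∃ n1, n1 = b1 / r := ⟨_, rfl⟩
  obtain ⟨n2, hn2⟩ : ∃ n2, n2 = b2 / r := ⟨_, rfl⟩
  obtain ⟨n3, hn3⟩ : ∃ n3, n3 = b3 / r := ⟨_, rfl⟩
  have e1 : b1 = n1 * r := by rw [hn1]; field_simp
  have e2 : b2 = n2 * r := by rw [hn2]; field_simp
  have e3 : b3 = n3 * r := by rw [hn3]; field_simp
  have hn : n1 ^ 2 + n2 ^ 2 + n3 ^ 2 = 1 := by
    rw [hn1, hn2, hn3, div_pow, div_pow, div_pow, ← add_div, ← add_div, ← hr2]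
    exact div_self (by positivity)
  have k0 := h ![1, 0, 0, 0] ![0, n1, n2, n3]
    (by simp [Fin.sum_univ_four]) (by simp [Fin.sum_univ_four]; linarith)
    (by simp [Fin.sum_univ_four])
  have k1 := h ![0, 1, 0, 0] ![-n1, 0, n3, -n2]
    (by simp [Fin.sum_univ_four]) (by simp [Fin.sum_univ_four]; linarith)
    (by simp [Fin.sum_univ_four])
  have k2 := h ![0, 0, 1, 0] ![-n2, -n3, 0, n1]
    (by simp [Fin.sum_univ_four]) (by simp [Fin.sum_univ_four]; linarith)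
    (by simp [Fin.sum_univ_four])
  have k3 := h ![0, 0, 0, 1] ![-n3, n2, -n1, 0]
    (by simp [Fin.sum_univ_four]) (by simp [Fin.sum_univ_four]; linarith)
    (by simp [Fin.sum_univ_four])
  simp [Fin.sum_univ_four] at k0 k1 k2 k3
  have a10 := hB 0 1
  have a20 := hB 0 2
  have a30 := hB 0 3
  have a21 := hB 1 2
  have a31 := hB 1 3
  have a32 := hB 2 3
  rw [a10] at k1
  rw [a20, a21] at k2
  rw [a30, a31, a32] at k3
  have hsum : 2 * (n1 * b1 + n2 * b2 + n3 * b3) < 4 := by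
    rw [hb1, hb2, hb3]
    linarith
  have hsum2 : n1 * b1 + n2 * b2 + n3 * b3 = r := by
    rw [e1, e2, e3]
    have : n1 * (n1 * r) + n2 * (n2 * r) + n3 * (n3 * r) = (n1 ^ 2 + n2 ^ 2 + n3 ^ 2) * r := by
      ring
    rw [this, hn, one_mul]
  rw [← hr2]
  rw [hsum2] at hsum
  nlinarith
-- END sdl

-- BEGIN dcp
/-- Polynomial identities modulo `hp` (checked numerically); `fin_cases`, replace `w b a` by `-w a b`, `linear_combination (..) * hp`. -/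
theorem decomp_four (w : Fin 4 → Fin 4 → ℝ) (hw : ∀ a b, w b a = -w a b)
    (hp : w 0 1 * w 2 3 - w 0 2 * w 1 3 + w 0 3 * w 1 2 = 0) (j : Fin 4) :
    (∀ a b, (∑ k, w a k * w k j) * w b j - (∑ k, w b k * w k j) * w a j =
      (∑ k, w k j ^ 2) * w a b) ∧
    ∑ a, w a j * (∑ k, w a k * w k j) = 0 ∧
    ∑ a, (∑ k, w a k * w k j) ^ 2 = (∑ k, w k j ^ 2) *
      (w 0 1 ^ 2 + w 0 2 ^ 2 + w 0 3 ^ 2 + w 1 2 ^ 2 + w 1 3 ^ 2 + w 2 3 ^ 2) := by
  have hd : ∀ a, w a a = 0 := fun a => by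
    have h := hw a a
    linarith
  have h00 := hd 0
  have h11 := hd 1
  have h22 := hd 2
  have h33 := hd 3
  have h10 : w 1 0 = -w 0 1 := hw 0 1
  have h20 : w 2 0 = -w 0 2 := hw 0 2
  have h30 : w 3 0 = -w 0 3 := hw 0 3
  have h21 : w 2 1 = -w 1 2 := hw 1 2
  have h31 : w 3 1 = -w 1 3 := hw 1 3
  have h32 : w 3 2 = -w 2 3 := hw 2 3
  clear hd
  refine ⟨?_, ?_, ?_⟩
  · intro a b
    simp only [Fin.sum_univ_four]
    fin_cases j <;> fin_cases a <;> fin_cases b <;>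
      simp only [Fin.zero_eta, Fin.mk_one, Fin.reduceFinMk, h00, h11, h22, h33, h10, h20, h30, h21,
        h31, h32] <;>
      first
        | linear_combination (0 : ℝ) * hp
        | linear_combination (w 0 1) * hp
        | linear_combination (w 0 2) * hp
        | linear_combination (w 0 3) * hp
        | linear_combination (w 1 2) * hp
        | linear_combination (w 1 3) * hp
        | linear_combination (w 2 3) * hp
        | linear_combination (-w 0 1) * hp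
        | linear_combination (-w 0 2) * hp
        | linear_combination (-w 0 3) * hp
        | linear_combination (-w 1 2) * hp
        | linear_combination (-w 1 3) * hp
        | linear_combination (-w 2 3) * hp
  · simp only [Fin.sum_univ_four]
    fin_cases j <;>
      simp only [Fin.zero_eta, Fin.mk_one, Fin.reduceFinMk, h00, h11, h22, h33, h10, h20, h30, h21,
        h31, h32] <;>
      ring
  · simp only [Fin.sum_univ_four]
    fin_cases j <;>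
      simp only [Fin.zero_eta, Fin.mk_one, Fin.reduceFinMk, h00, h11, h22, h33, h10, h20, h30, h21,
        h31, h32] <;>
      linear_combination (-(w 0 1 * w 2 3 - w 0 2 * w 1 3 + w 0 3 * w 1 2)) * hp
-- END dcp

-- BEGIN cst
private theorem cst_key (B : Fin 4 → Fin 4 → ℝ) (hB : ∀ i j, B j i = -B i j) (h : Lt1 B)
    (w : Fin 4 → Fin 4 → ℝ) (hw : ∀ a b, w b a = -w a b)
    (hp : w 0 1 * w 2 3 - w 0 2 * w 1 3 + w 0 3 * w 1 2 = 0)
    (hn : 0 < w 0 1 ^ 2 + w 0 2 ^ 2 + w 0 3 ^ 2 + w 1 2 ^ 2 + w 1 3 ^ 2 + w 2 3 ^ 2) :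
    B 0 1 * w 0 1 + B 0 2 * w 0 2 + B 0 3 * w 0 3 + B 1 2 * w 1 2 + B 1 3 * w 1 3 + B 2 3 * w 2 3 <
      Real.sqrt (w 0 1 ^ 2 + w 0 2 ^ 2 + w 0 3 ^ 2 + w 1 2 ^ 2 + w 1 3 ^ 2 + w 2 3 ^ 2) := by
  have hj : ∃ j, 0 < ∑ k, w k j ^ 2 := by
    by_contra hcon
    push Not at hcon
    have h1 := hcon 1
    have h2 := hcon 2
    have h3 := hcon 3
    rw [Fin.sum_univ_four] at h1 h2 h3
    nlinarith [sq_nonneg (w 0 1), sq_nonneg (w 1 1), sq_nonneg (w 2 1), sq_nonneg (w 3 1),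
      sq_nonneg (w 0 2), sq_nonneg (w 1 2), sq_nonneg (w 2 2), sq_nonneg (w 3 2),
      sq_nonneg (w 0 3), sq_nonneg (w 1 3), sq_nonneg (w 2 3), sq_nonneg (w 3 3)]
  obtain ⟨j, hρ⟩ := hj
  obtain ⟨d1, d2, d3⟩ := decomp_four w hw hp j
  obtain ⟨y, hy⟩ : ∃ y : Fin 4 → ℝ, ∀ a, y a = ∑ k, w a k * w k j := ⟨_, fun _ => rfl⟩
  obtain ⟨z, hz⟩ : ∃ z : Fin 4 → ℝ, ∀ a, z a = w a j := ⟨_, fun _ => rfl⟩
  obtain ⟨ρ, hρe⟩ : ∃ ρ : ℝ, ρ = ∑ k, w k j ^ 2 := ⟨_, rfl⟩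
  obtain ⟨n, hne⟩ : ∃ n : ℝ, n = w 0 1 ^ 2 + w 0 2 ^ 2 + w 0 3 ^ 2 + w 1 2 ^ 2 + w 1 3 ^ 2 + w 2 3 ^ 2 :=
    ⟨_, rfl⟩
  simp only [← hy, ← hρe] at d1 d2 d3 hρ
  simp only [← hz, ← hne] at d1 d2 d3 hn ⊢
  have hzz : ∑ a, z a ^ 2 = ρ := by
    rw [hρe]
    exact Finset.sum_congr rfl fun a _ => by rw [hz]
  have hZ : Real.sqrt ρ ^ 2 = ρ := Real.sq_sqrt hρ.le
  have hN : Real.sqrt n ^ 2 = n := Real.sq_sqrt hn.le
  have hZ0 : 0 < Real.sqrt ρ := Real.sqrt_pos.2 hρ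
  have hN0 : 0 < Real.sqrt n := Real.sqrt_pos.2 hn
  have hY0 : 0 < Real.sqrt ρ * Real.sqrt n := mul_pos hZ0 hN0
  have hc : ∑ i, (y i / (Real.sqrt ρ * Real.sqrt n)) ^ 2 = 1 := by
    have h1 : ∀ i, (y i / (Real.sqrt ρ * Real.sqrt n)) ^ 2 = y i ^ 2 / (ρ * n) := by
      intro i
      rw [div_pow, mul_pow, hZ, hN]
    rw [Finset.sum_congr rfl fun i _ => h1 i, ← Finset.sum_div, d3]
    exact div_self (mul_pos hρ hn).ne'
  have hd : ∑ i, (z i / Real.sqrt ρ) ^ 2 = 1 := by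
    have h1 : ∀ i, (z i / Real.sqrt ρ) ^ 2 = z i ^ 2 / ρ := by
      intro i
      rw [div_pow, hZ]
    rw [Finset.sum_congr rfl fun i _ => h1 i, ← Finset.sum_div, hzz]
    exact div_self hρ.ne'
  have hcd : ∑ i, y i / (Real.sqrt ρ * Real.sqrt n) * (z i / Real.sqrt ρ) = 0 := by
    have h1 : ∀ i, y i / (Real.sqrt ρ * Real.sqrt n) * (z i / Real.sqrt ρ) =
        (z i * y i) / (Real.sqrt ρ * Real.sqrt n * Real.sqrt ρ) := by
      intro i
      rw [div_mul_div_comm, mul_comm (y i)]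
    rw [Finset.sum_congr rfl fun i _ => h1 i, ← Finset.sum_div, d2, zero_div]
  have hlt := h _ _ hc hd hcd
  have h2 : ∀ i j', y i / (Real.sqrt ρ * Real.sqrt n) * (z j' / Real.sqrt ρ) * B i j' =
      (y i * z j' * B i j') / (Real.sqrt ρ * Real.sqrt n * Real.sqrt ρ) := by
    intro i j'
    rw [div_mul_div_comm, div_mul_eq_mul_div]
  simp only [h2, ← Finset.sum_div] at hlt
  rw [div_lt_one (mul_pos hY0 hZ0)] at hlt
  have b00 : B 0 0 = 0 := by have := hB 0 0; linarith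
  have b11 : B 1 1 = 0 := by have := hB 1 1; linarith
  have b22 : B 2 2 = 0 := by have := hB 2 2; linarith
  have b33 : B 3 3 = 0 := by have := hB 3 3; linarith
  have h3 : ∑ i, ∑ j', y i * z j' * B i j' = ρ * (B 0 1 * w 0 1 + B 0 2 * w 0 2 + B 0 3 * w 0 3 +
      B 1 2 * w 1 2 + B 1 3 * w 1 3 + B 2 3 * w 2 3) := by
    simp only [Fin.sum_univ_four]
    rw [b00, b11, b22, b33, hB 0 1, hB 0 2, hB 0 3, hB 1 2, hB 1 3, hB 2 3]
    linear_combination B 0 1 * d1 0 1 + B 0 2 * d1 0 2 + B 0 3 * d1 0 3 + B 1 2 * d1 1 2 +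
      B 1 3 * d1 1 3 + B 2 3 * d1 2 3
  rw [h3] at hlt
  have h4 : Real.sqrt ρ * Real.sqrt n * Real.sqrt ρ = ρ * Real.sqrt n := by
    calc Real.sqrt ρ * Real.sqrt n * Real.sqrt ρ = Real.sqrt ρ ^ 2 * Real.sqrt n := by ring
      _ = ρ * Real.sqrt n := by rw [hZ]
  rw [h4] at hlt
  exact lt_of_mul_lt_mul_left hlt hρ.le

/-- Let `p i j = u i * v j - u j * v i` and `w 0 1 = p 2 3`, `w 0 2 = -p 1 3`, `w 0 3 = p 1 2`, `w 1 2 = p 0 3`, `w 1 3 = -p 0 2`, `w 2 3 = p 0 1` (antisymmetric): `s4 B u v = ∑_(i<j) B i j * w i j`. If `w = 0`, `s4 = 0 <` right side. Else some column `j` has `ρ = ∑ k, w k j ^ 2 > 0`; with `y a = ∑ k, w a k * w k j`, `z a = w a j` (row dcp) `ρ * s4 = ∑ a, ∑ b, y a * z b * B a b < |y| |z| = ρ |w|` by `h` for `y / |y|`, `z / |z|`; so `s4 < |w| ≤ |u| |v| ≤ (|u| ^ 2 + |v| ^ 2) / 2` (Lagrange: `|w| ^ 2 = |u| ^ 2 |v| ^ 2 - (u · v) ^ 2`). -/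
theorem s4_lt (B : Fin 4 → Fin 4 → ℝ) (hB : ∀ i j, B j i = -B i j) (h : Lt1 B)
    (u v : Fin 4 → ℝ) (huv : u ≠ 0 ∨ v ≠ 0) :
    2 * s4 B u v < ∑ i, u i ^ 2 + ∑ i, v i ^ 2 := by
  have hpos : 0 < ∑ i, u i ^ 2 + ∑ i, v i ^ 2 := by
    have hU : 0 ≤ ∑ i, u i ^ 2 := Finset.sum_nonneg fun i _ => sq_nonneg _
    have hV : 0 ≤ ∑ i, v i ^ 2 := Finset.sum_nonneg fun i _ => sq_nonneg _
    rcases huv with h1 | h1
    · obtain ⟨i, hi⟩ := Function.ne_iff.1 h1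
      have h2 : 0 < ∑ i, u i ^ 2 := Finset.sum_pos' (fun i _ => sq_nonneg _)
        ⟨i, Finset.mem_univ i, sq_pos_of_ne_zero hi⟩
      linarith
    · obtain ⟨i, hi⟩ := Function.ne_iff.1 h1
      have h2 : 0 < ∑ i, v i ^ 2 := Finset.sum_pos' (fun i _ => sq_nonneg _)
        ⟨i, Finset.mem_univ i, sq_pos_of_ne_zero hi⟩
      linarith
  obtain ⟨w, hw, w01, w02, w03, w12, w13, w23⟩ : ∃ w : Fin 4 → Fin 4 → ℝ, (∀ a b, w b a = -w a b) ∧
      w 0 1 = u 2 * v 3 - u 3 * v 2 ∧ w 0 2 = -(u 1 * v 3 - u 3 * v 1) ∧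
      w 0 3 = u 1 * v 2 - u 2 * v 1 ∧ w 1 2 = u 0 * v 3 - u 3 * v 0 ∧
      w 1 3 = -(u 0 * v 2 - u 2 * v 0) ∧ w 2 3 = u 0 * v 1 - u 1 * v 0 := by
    refine ⟨fun a b => (!![0, u 2 * v 3 - u 3 * v 2, -(u 1 * v 3 - u 3 * v 1), u 1 * v 2 - u 2 * v 1;
      -(u 2 * v 3 - u 3 * v 2), 0, u 0 * v 3 - u 3 * v 0, -(u 0 * v 2 - u 2 * v 0);
      u 1 * v 3 - u 3 * v 1, -(u 0 * v 3 - u 3 * v 0), 0, u 0 * v 1 - u 1 * v 0;
      -(u 1 * v 2 - u 2 * v 1), u 0 * v 2 - u 2 * v 0, -(u 0 * v 1 - u 1 * v 0), 0] :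
        Matrix (Fin 4) (Fin 4) ℝ) a b, ?_, rfl, rfl, rfl, rfl, rfl, rfl⟩
    intro a b
    fin_cases a <;> fin_cases b <;> simp
  have hp : w 0 1 * w 2 3 - w 0 2 * w 1 3 + w 0 3 * w 1 2 = 0 := by
    rw [w01, w02, w03, w12, w13, w23]
    ring
  have hs : s4 B u v = B 0 1 * w 0 1 + B 0 2 * w 0 2 + B 0 3 * w 0 3 + B 1 2 * w 1 2 +
      B 1 3 * w 1 3 + B 2 3 * w 2 3 := by
    rw [w01, w02, w03, w12, w13, w23]
    unfold s4
    ring
  have hn0 : 0 ≤ w 0 1 ^ 2 + w 0 2 ^ 2 + w 0 3 ^ 2 + w 1 2 ^ 2 + w 1 3 ^ 2 + w 2 3 ^ 2 := by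
    positivity
  rcases hn0.lt_or_eq with hn | hn
  · have h1 := cst_key B hB h w hw hp hn
    rw [← hs] at h1
    have h2 : w 0 1 ^ 2 + w 0 2 ^ 2 + w 0 3 ^ 2 + w 1 2 ^ 2 + w 1 3 ^ 2 + w 2 3 ^ 2 ≤
        ((∑ i, u i ^ 2 + ∑ i, v i ^ 2) / 2) ^ 2 := by
      rw [w01, w02, w03, w12, w13, w23]
      simp only [Fin.sum_univ_four]
      nlinarith [sq_nonneg (u 0 * v 0 + u 1 * v 1 + u 2 * v 2 + u 3 * v 3),
        sq_nonneg (u 0 ^ 2 + u 1 ^ 2 + u 2 ^ 2 + u 3 ^ 2 - (v 0 ^ 2 + v 1 ^ 2 + v 2 ^ 2 + v 3 ^ 2))]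
    have h3 := Real.sqrt_le_sqrt h2
    rw [Real.sqrt_sq (by linarith)] at h3
    linarith
  · have z01 : w 0 1 = 0 := by nlinarith [sq_nonneg (w 0 1), sq_nonneg (w 0 2), sq_nonneg (w 0 3), sq_nonneg (w 1 2), sq_nonneg (w 1 3), sq_nonneg (w 2 3)]
    have z02 : w 0 2 = 0 := by nlinarith [sq_nonneg (w 0 1), sq_nonneg (w 0 2), sq_nonneg (w 0 3), sq_nonneg (w 1 2), sq_nonneg (w 1 3), sq_nonneg (w 2 3)]
    have z03 : w 0 3 = 0 := by nlinarith [sq_nonneg (w 0 1), sq_nonneg (w 0 2), sq_nonneg (w 0 3), sq_nonneg (w 1 2), sq_nonneg (w 1 3), sq_nonneg (w 2 3)]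
    have z12 : w 1 2 = 0 := by nlinarith [sq_nonneg (w 0 1), sq_nonneg (w 0 2), sq_nonneg (w 0 3), sq_nonneg (w 1 2), sq_nonneg (w 1 3), sq_nonneg (w 2 3)]
    have z13 : w 1 3 = 0 := by nlinarith [sq_nonneg (w 0 1), sq_nonneg (w 0 2), sq_nonneg (w 0 3), sq_nonneg (w 1 2), sq_nonneg (w 1 3), sq_nonneg (w 2 3)]
    have z23 : w 2 3 = 0 := by nlinarith [sq_nonneg (w 0 1), sq_nonneg (w 0 2), sq_nonneg (w 0 3), sq_nonneg (w 1 2), sq_nonneg (w 1 3), sq_nonneg (w 2 3)]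
    rw [hs, z01, z02, z03, z12, z13, z23]
    simp only [mul_zero, add_zero]
    exact hpos
-- END cst

-- BEGIN t6t
/-- `hd 0 = 0`, `hd 1 = 1`, `tl i = i + 2`, `(1 + 1)! * 4 = 8`; for the second part the same with `O b = A (b 0) (b 1)`, `pr (s 0) (s 1)` at `0`, `1`. -/
theorem tri_T6 (O : (Fin (1 + 1) → Fin (1 + 5)) → ℝ) (X Y : Fin (1 + 5) → Fin (1 + 5) → ℝ) :
    tri O X Y = T6 (fun a b => O (pr a b)) X Y := by
  have h1 : (1 / (4 * (Nat.factorial (1 + 1) : ℝ))) = 1 / 8 := by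
    norm_num [Nat.factorial]
  have t0 : (tl 0 : Fin (1 + 5)) = 2 := rfl
  have t1 : (tl 1 : Fin (1 + 5)) = 3 := rfl
  have t2 : (tl 2 : Fin (1 + 5)) = 4 := rfl
  have t3 : (tl 3 : Fin (1 + 5)) = 5 := rfl
  unfold tri T6
  rw [h1]
  refine congrArg (fun z : ℝ => 1 / 8 * z) ?_
  refine Finset.sum_congr rfl fun s _ => ?_
  have h2 : (fun r : Fin (1 + 1) => s (hd r)) = pr (s 0) (s 1) := by
    funext r
    fin_cases r
    · rfl
    · rfl
  rw [h2, t0, t1, t2, t3]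
-- END t6t

-- BEGIN t6s
private theorem t6s_sg (a b c d : Fin (1 + 5)) (hab : a ≠ b) (hcd : c ≠ d) :
    sg (Equiv.swap a b * Equiv.swap c d) = 1 := by
  unfold sg
  rw [Equiv.Perm.sign_mul, Equiv.Perm.sign_swap hab, Equiv.Perm.sign_swap hcd]
  norm_num

private theorem t6s_key (A X Y : Fin (1 + 5) → Fin (1 + 5) → ℝ)
    (τ : Equiv.Perm (Fin (1 + 5))) (hτ : sg τ = 1) :
    ∑ s : Equiv.Perm (Fin (1 + 5)), sg s * (A (s 0) (s 1) * (X (s 2) (s 3) * Y (s 4) (s 5))) =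
      ∑ s : Equiv.Perm (Fin (1 + 5)), sg s * (A (s (τ 0)) (s (τ 1)) *
        (X (s (τ 2)) (s (τ 3)) * Y (s (τ 4)) (s (τ 5)))) := by
  have h := sum_perm (fun s : Equiv.Perm (Fin (1 + 5)) =>
    A (s 0) (s 1) * (X (s 2) (s 3) * Y (s 4) (s 5))) τ
  rw [hτ, one_smul] at h
  simp only [smul_eq_mul] at h
  exact h.symm

/-- Symmetry: `s ↦ s * τ`, `τ = (0 2)(1 3)` resp. `(2 4)(3 5)` (even), `sum_perm`. Additivity: distribute (`Finset.sum_add_distrib`). -/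
theorem T6_symm (A X Y Z : Fin (1 + 5) → Fin (1 + 5) → ℝ) :
    T6 A X Y = T6 X A Y ∧ T6 A X Y = T6 A Y X ∧
      T6 (fun a b => A a b + Z a b) X Y = T6 A X Y + T6 Z X Y := by
  refine ⟨?_, ?_, ?_⟩
  · unfold T6
    congr 1
    obtain ⟨τ, hτ⟩ : ∃ τ : Equiv.Perm (Fin (1 + 5)), τ = Equiv.swap 0 2 * Equiv.swap 1 3 :=
      ⟨_, rfl⟩
    have hs : sg τ = 1 := by
      rw [hτ]
      exact t6s_sg _ _ _ _ (by decide) (by decide)
    have e0 : τ 0 = 2 := by rw [hτ]; decide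
    have e1 : τ 1 = 3 := by rw [hτ]; decide
    have e2 : τ 2 = 0 := by rw [hτ]; decide
    have e3 : τ 3 = 1 := by rw [hτ]; decide
    have e4 : τ 4 = 4 := by rw [hτ]; decide
    have e5 : τ 5 = 5 := by rw [hτ]; decide
    rw [t6s_key A X Y τ hs, e0, e1, e2, e3, e4, e5]
    refine Finset.sum_congr rfl fun s _ => ?_
    ring
  · unfold T6
    congr 1
    obtain ⟨τ, hτ⟩ : ∃ τ : Equiv.Perm (Fin (1 + 5)), τ = Equiv.swap 2 4 * Equiv.swap 3 5 :=
      ⟨_, rfl⟩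
    have hs : sg τ = 1 := by
      rw [hτ]
      exact t6s_sg _ _ _ _ (by decide) (by decide)
    have e0 : τ 0 = 0 := by rw [hτ]; decide
    have e1 : τ 1 = 1 := by rw [hτ]; decide
    have e2 : τ 2 = 4 := by rw [hτ]; decide
    have e3 : τ 3 = 5 := by rw [hτ]; decide
    have e4 : τ 4 = 2 := by rw [hτ]; decide
    have e5 : τ 5 = 3 := by rw [hτ]; decide
    rw [t6s_key A X Y τ hs, e0, e1, e2, e3, e4, e5]
    refine Finset.sum_congr rfl fun s _ => ?_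
    ring
  · unfold T6
    rw [← mul_add, ← Finset.sum_add_distrib]
    congr 1
    refine Finset.sum_congr rfl fun s _ => ?_
    ring
-- END t6s

-- BEGIN t6z
theorem t6z_sum (s : Equiv.Perm (Fin (1 + 5))) :
    ((if (s 0).1 < 2 then 1 else 0) + (if (s 1).1 < 2 then 1 else 0)) +
      ((if (s 2).1 < 2 then 1 else 0) + (if (s 3).1 < 2 then 1 else 0)) +
      ((if (s 4).1 < 2 then 1 else 0) + (if (s 5).1 < 2 then 1 else 0)) = 2 := by
  have h1 : ∑ i : Fin (1 + 5), (if (s i).1 < 2 then 1 else 0) =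
      ∑ i : Fin (1 + 5), (if i.1 < 2 then 1 else 0) :=
    Equiv.sum_comp s fun i : Fin (1 + 5) => if i.1 < 2 then 1 else 0
  have h2 : ∑ i : Fin (1 + 5), (if i.1 < 2 then 1 else 0) = 2 := by decide
  have h3 : ∑ i : Fin (1 + 5), (if (s i).1 < 2 then 1 else 0) =
      (if (s 0).1 < 2 then 1 else 0) + (if (s 1).1 < 2 then 1 else 0) +
      (if (s 2).1 < 2 then 1 else 0) + (if (s 3).1 < 2 then 1 else 0) +
      (if (s 4).1 < 2 then 1 else 0) + (if (s 5).1 < 2 then 1 else 0) :=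
    Fin.sum_univ_six fun i : Fin (1 + 5) => if (s i).1 < 2 then 1 else 0
  omega

/-- For a permutation `s` exactly two of `s 0, …, s 5` are `< 2`, so a product different from `0` gives `a + b + c = 2`. -/
theorem T6_ty (a b c : ℕ) (A X Y : Fin (1 + 5) → Fin (1 + 5) → ℝ) (hA : Ty a A) (hX : Ty b X)
    (hY : Ty c Y) (h : a + b + c ≠ 2) : T6 A X Y = 0 := by
  unfold T6
  rw [Finset.sum_eq_zero, mul_zero]
  intro s _
  by_cases h1 : A (s 0) (s 1) = 0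
  · rw [h1, zero_mul, mul_zero]
  by_cases h2 : X (s 2) (s 3) = 0
  · rw [h2, zero_mul, mul_zero, mul_zero]
  by_cases h3 : Y (s 4) (s 5) = 0
  · rw [h3, mul_zero, mul_zero, mul_zero]
  exfalso
  have h4 := hA _ _ h1
  have h5 := hX _ _ h2
  have h6 := hY _ _ h3
  have h7 := t6z_sum s
  rw [h4, h5, h6] at h7
  exact h h7
-- END t6z

-- BEGIN t6a
private theorem t6a_alt (X : Fin (1 + 5) → Fin (1 + 5) → ℝ) (hX : Asym X) :
    Alt (fun b : Fin (1 + 1) → Fin (1 + 5) => X (b 0) (b 1)) := by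
  intro b σ
  have hσ : σ = 1 ∨ σ = Equiv.swap (0 : Fin (1 + 1)) 1 := by
    revert σ
    decide
  rcases hσ with h | h
  · subst h
    simp [sg]
  · subst h
    have h0 : (Equiv.swap (0 : Fin (1 + 1)) 1) 0 = 1 := by decide
    have h1 : (Equiv.swap (0 : Fin (1 + 1)) 1) 1 = 0 := by decide
    have hs : sg (Equiv.swap (0 : Fin (1 + 1)) 1) = -1 := by
      unfold sg
      rw [Equiv.Perm.sign_swap (by decide)]
      norm_num
    show X (b ((Equiv.swap (0 : Fin (1 + 1)) 1) 0)) (b ((Equiv.swap (0 : Fin (1 + 1)) 1) 1)) = _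
    rw [h0, h1, hs, hX (b 0) (b 1)]
    ring

private theorem t6a_zero (A : Fin (1 + 5) → Fin (1 + 5) → ℝ) (hA0 : Ty 0 A) (r : Fin (1 + 1))
    (b : Fin (1 + 5)) : A (hd r) b = 0 := by
  by_contra hne
  have h := hA0 (hd r) b hne
  have hr : (hd r : Fin (1 + 5)).1 < 2 := by
    show r.1 < 2
    have := r.2
    omega
  rw [if_pos hr] at h
  omega

/-- Row t6t for `O b = X (b 0) (b 1)` (which is `Alt`: `Perm (Fin 2)` has two elements) and row tpp (`Ty 0` says that the `hd` rows vanish; `hd r` is `0` or `1`). -/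
theorem T6_two (X A Y : Fin (1 + 5) → Fin (1 + 5) → ℝ) (hX : Asym X) (hA : Asym A)
    (hY : Asym Y) (hA0 : Ty 0 A) (hY0 : Ty 0 Y) : T6 X A Y = X 0 1 * six A Y := by
  have h1 := tri_T6 (fun b : Fin (1 + 1) → Fin (1 + 5) => X (b 0) (b 1)) A Y
  have h2 := tri_PP (fun b : Fin (1 + 1) → Fin (1 + 5) => X (b 0) (b 1)) (t6a_alt X hX) A Y hA hY
    (t6a_zero A hA0) (t6a_zero Y hY0)
  have h3 : (fun a b => (fun b : Fin (1 + 1) → Fin (1 + 5) => X (b 0) (b 1)) (pr a b)) = X := by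
    funext a b
    rfl
  rw [h3] at h1
  rw [← h1, h2]
  rfl
-- END t6a

-- BEGIN t6b
private theorem t6b_per {k : ℕ} (G : Equiv.Perm (Fin k) → ℝ) (τ : Equiv.Perm (Fin k)) :
    ∑ s, sg s * G (s * τ) = sg τ * ∑ s, sg s * G s := by
  have h := sum_perm G τ
  simpa only [smul_eq_mul] using h

private theorem t6b_swap {k : ℕ} (i j : Fin k) (h : i ≠ j) : sg (Equiv.swap i j) = -1 := by
  simp [sg, Equiv.Perm.sign_swap h]

private theorem t6b_split (X : Fin (1 + 5) → Fin (1 + 5) → ℝ) (hX : Asym X) (hX1 : Ty 1 X)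
    (a b : Fin (1 + 5)) :
    X a b = (if a.1 < 2 then X a b else 0) - (if b.1 < 2 then X b a else 0) := by
  by_cases ha : a.1 < 2 <;> by_cases hb : b.1 < 2
  · have h1 : X a b = 0 := by
      by_contra h
      have := hX1 a b h
      simp [ha, hb] at this
    have h2 : X b a = 0 := by rw [hX a b, h1, neg_zero]
    simp [ha, hb, h1, h2]
  · simp [ha, hb]
  · simp only [ha, hb, if_false, if_true, zero_sub]
    exact (hX b a)
  · have h1 : X a b = 0 := by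
      by_contra h
      have := hX1 a b h
      simp [ha, hb] at this
    simp [ha, hb, h1]

private theorem t6b_two (X : Fin (1 + 5) → Fin (1 + 5) → ℝ) (a b : Fin (1 + 5)) :
    (if a.1 < 2 then X a b else 0) =
      (if a = 0 then X 0 b else 0) + (if a = 1 then X 1 b else 0) := by
  fin_cases a <;> simp

private theorem t6b_rho (A X : Fin (1 + 5) → Fin (1 + 5) → ℝ) (hA : Asym A) :
    ∑ ρ : Equiv.Perm (Fin 4), sg ρ * (A (tl (ρ 0)) (tl (ρ 1)) *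
      (X 0 (tl (ρ 2)) * X 1 (tl (ρ 3)))) =
      2 * s4 (fun i j => A (tl i) (tl j)) (fun j => X 0 (tl j)) (fun j => X 1 (tl j)) := by
  have h1 := sum_24 (q := 1) A (fun a b => X 0 a * X 1 b - X 0 b * X 1 a) hA
    (fun a b => by ring)
  have h2 := t6b_per (fun ρ : Equiv.Perm (Fin 4) => A (tl (ρ 0)) (tl (ρ 1)) *
      (X 0 (tl (ρ 2)) * X 1 (tl (ρ 3)))) (Equiv.swap 2 3)
  rw [t6b_swap 2 3 (by decide)] at h2
  have e0 : (Equiv.swap (2 : Fin 4) 3) 0 = 0 := by decide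
  have e1 : (Equiv.swap (2 : Fin 4) 3) 1 = 1 := by decide
  have e2 : (Equiv.swap (2 : Fin 4) 3) 2 = 3 := by decide
  have e3 : (Equiv.swap (2 : Fin 4) 3) 3 = 2 := by decide
  simp only [Equiv.Perm.mul_apply, e0, e1, e2, e3] at h2
  have h3 : ∑ ρ : Equiv.Perm (Fin 4), sg ρ * (A (tl (ρ 0)) (tl (ρ 1)) *
      (X 0 (tl (ρ 2)) * X 1 (tl (ρ 3)) - X 0 (tl (ρ 3)) * X 1 (tl (ρ 2)))) =
      (∑ ρ : Equiv.Perm (Fin 4), sg ρ * (A (tl (ρ 0)) (tl (ρ 1)) *
        (X 0 (tl (ρ 2)) * X 1 (tl (ρ 3))))) -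
      ∑ ρ : Equiv.Perm (Fin 4), sg ρ * (A (tl (ρ 0)) (tl (ρ 1)) *
        (X 0 (tl (ρ 3)) * X 1 (tl (ρ 2)))) := by
    rw [← Finset.sum_sub_distrib]
    exact Finset.sum_congr rfl fun ρ _ => by ring
  rw [h3, h2] at h1
  have h4 : six A (fun a b => X 0 a * X 1 b - X 0 b * X 1 a) =
      s4 (fun i j => A (tl i) (tl j)) (fun j => X 0 (tl j)) (fun j => X 1 (tl j)) := by
    unfold six s4
    ring
  rw [h4] at h1
  linarith

private theorem t6b_last (A X : Fin (1 + 5) → Fin (1 + 5) → ℝ) (hA : Asym A) :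
    ∑ s : Equiv.Perm (Fin (1 + 5)), sg s *
      (((if s 0 = 0 ∧ s 1 = 1 then (1 : ℝ) else 0) - (if s 0 = 1 ∧ s 1 = 0 then 1 else 0)) *
        (A (s 2) (s 3) * (X 0 (s 4) * X 1 (s 5)))) =
      4 * s4 (fun i j => A (tl i) (tl j)) (fun j => X 0 (tl j)) (fun j => X 1 (tl j)) := by
  have hO : Alt (q := 1) (fun b : Fin (1 + 1) → Fin (1 + 5) =>
      (if b 0 = 0 ∧ b 1 = 1 then (1 : ℝ) else 0) - (if b 0 = 1 ∧ b 1 = 0 then 1 else 0)) := by
    intro b σ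
    have h2 : ∀ σ : Equiv.Perm (Fin (1 + 1)), σ = 1 ∨ σ = Equiv.swap 0 1 := by decide
    rcases h2 σ with h | h
    · subst h
      have h1 : sg (1 : Equiv.Perm (Fin (1 + 1))) = 1 := by simp [sg]
      rw [h1, one_mul]
      rfl
    · subst h
      rw [t6b_swap (k := 1 + 1) 0 1 (by decide)]
      have e0 : (Equiv.swap (0 : Fin (1 + 1)) 1) 0 = 1 := by decide
      have e1 : (Equiv.swap (0 : Fin (1 + 1)) 1) 1 = 0 := by decide
      simp only [e0, e1]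
      by_cases h3 : b 0 = 0 ∧ b 1 = 1
      · have h4 : ¬ (b 0 = 1 ∧ b 1 = 0) := by
          rintro ⟨h5, _⟩
          rw [h3.1] at h5
          exact absurd h5 (by decide)
        have h6 : ¬ (b 1 = 0 ∧ b 0 = 1) := fun h => h4 ⟨h.2, h.1⟩
        have h7 : b 1 = 1 ∧ b 0 = 0 := ⟨h3.2, h3.1⟩
        simp [h3, h4, h6, h7]
      · by_cases h4 : b 0 = 1 ∧ b 1 = 0
        · have h6 : b 1 = 0 ∧ b 0 = 1 := ⟨h4.2, h4.1⟩
          have h7 : ¬ (b 1 = 1 ∧ b 0 = 0) := fun h => h3 ⟨h.2, h.1⟩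
          simp [h3, h4, h6, h7]
        · have h6 : ¬ (b 1 = 0 ∧ b 0 = 1) := fun h => h4 ⟨h.2, h.1⟩
          have h7 : ¬ (b 1 = 1 ∧ b 0 = 0) := fun h => h3 ⟨h.2, h.1⟩
          simp only [if_neg h3, if_neg h4, if_neg h6, if_neg h7]
          ring
  have hz : ∀ s : Equiv.Perm (Fin (1 + 5)), (∃ r j, s (hd (q := 1) r) = tl j) →
      (fun b : Fin (1 + 1) → Fin (1 + 5) =>
        (if b 0 = 0 ∧ b 1 = 1 then (1 : ℝ) else 0) - (if b 0 = 1 ∧ b 1 = 0 then 1 else 0))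
        (fun r => s (hd r)) *
        (fun a b c d => A a b * (X 0 c * X 1 d)) (s (tl 0)) (s (tl 1)) (s (tl 2)) (s (tl 3))
          = 0 := by
    rintro s ⟨r, j, hrj⟩
    have h0 : (tl (q := 1) j) ≠ 0 := by
      intro h
      have := congrArg Fin.val h
      simp [tl] at this
    have h1 : (tl (q := 1) j) ≠ 1 := by
      intro h
      have := congrArg Fin.val h
      simp [tl] at this
      omega
    have h2 : ((if s (hd (0 : Fin (1 + 1))) = 0 ∧ s (hd (1 : Fin (1 + 1))) = 1 then (1 : ℝ)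
        else 0) - (if s (hd (0 : Fin (1 + 1))) = 1 ∧ s (hd (1 : Fin (1 + 1))) = 0 then 1
        else 0)) = 0 := by
      have hr : r = 0 ∨ r = 1 := by
        have : ∀ r : Fin (1 + 1), r = 0 ∨ r = 1 := by decide
        exact this r
      rcases hr with hr | hr
      · subst hr
        rw [hrj]
        simp [h0, h1]
      · subst hr
        rw [hrj]
        simp [h0, h1]
    change ((if s (hd (0 : Fin (1 + 1))) = 0 ∧ s (hd (1 : Fin (1 + 1))) = 1 then (1 : ℝ)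
        else 0) - (if s (hd (0 : Fin (1 + 1))) = 1 ∧ s (hd (1 : Fin (1 + 1))) = 0 then 1
        else 0)) * _ = 0
    rw [h2, zero_mul]
  have h := sum_block (q := 1) _ hO (fun a b c d => A a b * (X 0 c * X 1 d)) hz
  have e0 : (hd (0 : Fin (1 + 1)) : Fin (1 + 5)) = 0 := rfl
  have e1 : (hd (1 : Fin (1 + 1)) : Fin (1 + 5)) = 1 := rfl
  have e2 : (tl (0 : Fin 4) : Fin (1 + 5)) = 2 := rfl
  have e3 : (tl (1 : Fin 4) : Fin (1 + 5)) = 3 := rfl
  have e4 : (tl (2 : Fin 4) : Fin (1 + 5)) = 4 := rfl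
  have e5 : (tl (3 : Fin 4) : Fin (1 + 5)) = 5 := rfl
  simp only [e0, e1, e2, e3, e4, e5] at h
  rw [h, t6b_rho A X hA]
  have h9 : ((Nat.factorial (1 + 1) : ℕ) : ℝ) = 2 := by norm_num [Nat.factorial]
  rw [h9]
  simp
  ring

/-- Write `X a b = f a b - f b a` with `f a b = if a.1 < 2 then X a b else 0` (`hX1`: then `f a b ≠ 0` only for `a.1 < 2 ≤ b.1`). By `s ↦ s * swap 2 3`, `s ↦ s * swap 4 5` (odd) `8 * T6 A X X = 4 ∑ s, sg s * A (s 0) (s 1) * f (s 2) (s 3) * f (s 4) (s 5)`; by `s = s' * π`, `π = (0 ↦ 2, 1 ↦ 3, 2 ↦ 0, 3 ↦ 4, 4 ↦ 1, 5 ↦ 5)` (odd) it is `-4 ∑ s', sg s' * (f (s' 0) (s' 4) * f (s' 1) (s' 5)) * A (s' 2) (s' 3)`: only `s' = cmb σ ρ` (row cmb) count; the two `σ` give `u (ρ 2) * v (ρ 3) - v (ρ 2) * u (ρ 3)`, and row s24 gives `-4 * 4 * s4`. Any other proof is fine, also by computation. -/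
theorem T6_one (A X : Fin (1 + 5) → Fin (1 + 5) → ℝ) (hA : Asym A) (hX : Asym X)
    (hA0 : Ty 0 A) (hX1 : Ty 1 X) : T6 A X X =
      -(2 * s4 (fun i j => A (tl i) (tl j)) (fun j => X 0 (tl j)) (fun j => X 1 (tl j))) := by
  set f : Fin (1 + 5) → Fin (1 + 5) → ℝ := fun a b => if a.1 < 2 then X a b else 0 with hf
  have hXf : ∀ a b, X a b = f a b - f b a := t6b_split X hX hX1
  -- step 1
  have h1 := t6b_per (fun s : Equiv.Perm (Fin (1 + 5)) => A (s 0) (s 1) *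
    (f (s 2) (s 3) * X (s 4) (s 5))) (Equiv.swap 2 3)
  rw [t6b_swap (k := 1 + 5) 2 3 (by decide)] at h1
  have a0 : (Equiv.swap (2 : Fin (1 + 5)) 3) 0 = 0 := by decide
  have a1 : (Equiv.swap (2 : Fin (1 + 5)) 3) 1 = 1 := by decide
  have a2 : (Equiv.swap (2 : Fin (1 + 5)) 3) 2 = 3 := by decide
  have a3 : (Equiv.swap (2 : Fin (1 + 5)) 3) 3 = 2 := by decide
  have a4 : (Equiv.swap (2 : Fin (1 + 5)) 3) 4 = 4 := by decide
  have a5 : (Equiv.swap (2 : Fin (1 + 5)) 3) 5 = 5 := by decide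
  simp only [Equiv.Perm.mul_apply, a0, a1, a2, a3, a4, a5] at h1
  -- step 2
  have h2 := t6b_per (fun s : Equiv.Perm (Fin (1 + 5)) => A (s 0) (s 1) *
    (f (s 2) (s 3) * f (s 4) (s 5))) (Equiv.swap 4 5)
  rw [t6b_swap (k := 1 + 5) 4 5 (by decide)] at h2
  have b0 : (Equiv.swap (4 : Fin (1 + 5)) 5) 0 = 0 := by decide
  have b1 : (Equiv.swap (4 : Fin (1 + 5)) 5) 1 = 1 := by decide
  have b2 : (Equiv.swap (4 : Fin (1 + 5)) 5) 2 = 2 := by decide
  have b3 : (Equiv.swap (4 : Fin (1 + 5)) 5) 3 = 3 := by decide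
  have b4 : (Equiv.swap (4 : Fin (1 + 5)) 5) 4 = 5 := by decide
  have b5 : (Equiv.swap (4 : Fin (1 + 5)) 5) 5 = 4 := by decide
  simp only [Equiv.Perm.mul_apply, b0, b1, b2, b3, b4, b5] at h2
  -- step 3
  obtain ⟨τ, c0, c1, c2, c3, c4, c5, cs⟩ : ∃ τ : Equiv.Perm (Fin (1 + 5)), τ 0 = 2 ∧ τ 1 = 4 ∧
      τ 2 = 0 ∧ τ 3 = 1 ∧ τ 4 = 3 ∧ τ 5 = 5 ∧ sg τ = -1 := by
    refine ⟨Equiv.swap 0 2 * (Equiv.swap 1 3 * Equiv.swap 1 4), by decide, by decide, by decide,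
      by decide, by decide, by decide, ?_⟩
    have : Equiv.Perm.sign (Equiv.swap (0 : Fin (1 + 5)) 2 *
        (Equiv.swap 1 3 * Equiv.swap 1 4)) = -1 := by
      rw [Equiv.Perm.sign_mul, Equiv.Perm.sign_mul, Equiv.Perm.sign_swap (by decide),
        Equiv.Perm.sign_swap (by decide), Equiv.Perm.sign_swap (by decide)]
      decide
    simp only [sg, this]
    norm_num
  have h3 := t6b_per (fun s : Equiv.Perm (Fin (1 + 5)) => A (s 2) (s 3) *
    (f (s 0) (s 4) * f (s 1) (s 5))) τ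
  rw [cs] at h3
  simp only [Equiv.Perm.mul_apply, c0, c1, c2, c3, c4, c5] at h3
  -- step 4
  have h4 := t6b_per (fun s : Equiv.Perm (Fin (1 + 5)) =>
    (if s 0 = 1 ∧ s 1 = 0 then (1 : ℝ) else 0) * (A (s 2) (s 3) * (X 1 (s 5) * X 0 (s 4))))
    (Equiv.swap 4 5)
  rw [t6b_swap (k := 1 + 5) 4 5 (by decide)] at h4
  simp only [Equiv.Perm.mul_apply, b0, b1, b2, b3, b4, b5] at h4
  have h5 : ∀ s : Equiv.Perm (Fin (1 + 5)), f (s 0) (s 4) * f (s 1) (s 5) =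
      (if s 0 = 0 ∧ s 1 = 1 then (1 : ℝ) else 0) * (X 0 (s 4) * X 1 (s 5)) +
      (if s 0 = 1 ∧ s 1 = 0 then (1 : ℝ) else 0) * (X 1 (s 4) * X 0 (s 5)) := by
    intro s
    have hne : s 0 ≠ s 1 := fun h => absurd (s.injective h) (by decide)
    simp only [hf]
    rw [t6b_two X (s 0) (s 4), t6b_two X (s 1) (s 5)]
    by_cases p0 : s 0 = 0
    · have q0 : s 0 ≠ 1 := by rw [p0]; decide
      have q1 : s 1 ≠ 0 := fun h => hne (p0.trans h.symm)
      by_cases p1 : s 1 = 1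
      · simp [p0, p1]
      · simp [p0, p1, q1]
    · by_cases p1 : s 0 = 1
      · have q1 : s 1 ≠ 1 := fun h => hne (p1.trans h.symm)
        by_cases p2 : s 1 = 0
        · simp [p1, p2]
        · simp [p1, p2, q1]
      · simp [p0, p1]
  have h6 := t6b_last A X hA
  -- sums
  have g1 : ∑ s : Equiv.Perm (Fin (1 + 5)), sg s * (A (s 0) (s 1) * (X (s 2) (s 3) * X (s 4) (s 5)))
      = (∑ s : Equiv.Perm (Fin (1 + 5)), sg s * (A (s 0) (s 1) * (f (s 2) (s 3) * X (s 4) (s 5)))) -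
        ∑ s : Equiv.Perm (Fin (1 + 5)), sg s * (A (s 0) (s 1) * (f (s 3) (s 2) * X (s 4) (s 5))) := by
    rw [← Finset.sum_sub_distrib]
    refine Finset.sum_congr rfl fun s _ => ?_
    rw [hXf (s 2) (s 3)]
    ring
  have g2 : ∑ s : Equiv.Perm (Fin (1 + 5)), sg s * (A (s 0) (s 1) * (f (s 2) (s 3) * X (s 4) (s 5)))
      = (∑ s : Equiv.Perm (Fin (1 + 5)), sg s * (A (s 0) (s 1) * (f (s 2) (s 3) * f (s 4) (s 5)))) -
        ∑ s : Equiv.Perm (Fin (1 + 5)), sg s * (A (s 0) (s 1) * (f (s 2) (s 3) * f (s 5) (s 4))) := by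
    rw [← Finset.sum_sub_distrib]
    refine Finset.sum_congr rfl fun s _ => ?_
    rw [hXf (s 4) (s 5)]
    ring
  have g3 : ∑ s : Equiv.Perm (Fin (1 + 5)), sg s * (A (s 2) (s 3) * (f (s 0) (s 4) * f (s 1) (s 5)))
      = (∑ s : Equiv.Perm (Fin (1 + 5)), sg s * ((if s 0 = 0 ∧ s 1 = 1 then (1 : ℝ) else 0) *
          (A (s 2) (s 3) * (X 0 (s 4) * X 1 (s 5))))) +
        ∑ s : Equiv.Perm (Fin (1 + 5)), sg s * ((if s 0 = 1 ∧ s 1 = 0 then (1 : ℝ) else 0) *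
          (A (s 2) (s 3) * (X 1 (s 4) * X 0 (s 5)))) := by
    rw [← Finset.sum_add_distrib]
    refine Finset.sum_congr rfl fun s _ => ?_
    rw [h5 s]
    ring
  have g4 : ∑ s : Equiv.Perm (Fin (1 + 5)), sg s *
      (((if s 0 = 0 ∧ s 1 = 1 then (1 : ℝ) else 0) - (if s 0 = 1 ∧ s 1 = 0 then 1 else 0)) *
        (A (s 2) (s 3) * (X 0 (s 4) * X 1 (s 5)))) =
      (∑ s : Equiv.Perm (Fin (1 + 5)), sg s * ((if s 0 = 0 ∧ s 1 = 1 then (1 : ℝ) else 0) *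
          (A (s 2) (s 3) * (X 0 (s 4) * X 1 (s 5))))) -
        ∑ s : Equiv.Perm (Fin (1 + 5)), sg s * ((if s 0 = 1 ∧ s 1 = 0 then (1 : ℝ) else 0) *
          (A (s 2) (s 3) * (X 1 (s 5) * X 0 (s 4)))) := by
    rw [← Finset.sum_sub_distrib]
    exact Finset.sum_congr rfl fun s _ => by ring
  unfold T6
  rw [g1]
  linarith
-- END t6b

-- BEGIN qua
/-- the part of type `k` -/
private noncomputable def qua_part (k : ℕ) (X : Fin (1 + 5) → Fin (1 + 5) → ℝ) :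
    Fin (1 + 5) → Fin (1 + 5) → ℝ :=
  fun a b => if (if a.1 < 2 then 1 else 0) + (if b.1 < 2 then 1 else 0) = k then X a b else 0

private theorem qua_fin : ∀ r : Fin (1 + 1), r = 0 ∨ r = 1 := by decide

private theorem qua_ty (k : ℕ) (X : Fin (1 + 5) → Fin (1 + 5) → ℝ) : Ty k (qua_part k X) := by
  intro a b h
  by_contra hn
  exact h (if_neg hn)

private theorem qua_asym (k : ℕ) (X : Fin (1 + 5) → Fin (1 + 5) → ℝ) (hX : Asym X) :
    Asym (qua_part k X) := by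
  intro a b
  unfold qua_part
  rw [hX a b, add_comm (if b.1 < 2 then 1 else 0)]
  split_ifs <;> simp

private theorem qua_split (X : Fin (1 + 5) → Fin (1 + 5) → ℝ) :
    X = qua_part 2 X + qua_part 1 X + qua_part 0 X := by
  funext a b
  show X a b = qua_part 2 X a b + qua_part 1 X a b + qua_part 0 X a b
  unfold qua_part
  by_cases ha : a.1 < 2 <;> by_cases hb : b.1 < 2 <;> simp [ha, hb]

private theorem qua_tln (i : Fin 4) : ¬ ((tl i : Fin (1 + 5)).1 < 2) := by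
  show ¬ (1 + 1 + i.1 < 2)
  omega

private theorem qua_tl (X : Fin (1 + 5) → Fin (1 + 5) → ℝ) (i j : Fin 4) :
    qua_part 0 X (tl i) (tl j) = X (tl i) (tl j) := by
  unfold qua_part
  rw [if_neg (qua_tln i), if_neg (qua_tln j)]
  exact if_pos rfl

private theorem qua_one (X : Fin (1 + 5) → Fin (1 + 5) → ℝ) (a : Fin (1 + 5)) (ha : a.1 < 2)
    (j : Fin 4) : qua_part 1 X a (tl j) = X a (tl j) := by
  unfold qua_part
  rw [if_neg (qua_tln j), if_pos ha]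
  exact if_pos rfl

private theorem qua_two (X : Fin (1 + 5) → Fin (1 + 5) → ℝ) : qua_part 2 X 0 1 = X 0 1 :=
  if_pos (by decide)

private theorem qua_six (X Y : Fin (1 + 5) → Fin (1 + 5) → ℝ) :
    six (qua_part 0 X) (qua_part 0 Y) = six X Y := by
  unfold six
  simp only [qua_tl]

private theorem qua_s1 (A X Y : Fin (1 + 5) → Fin (1 + 5) → ℝ) : T6 A X Y = T6 X A Y :=
  (T6_symm A X Y A).1

private theorem qua_s2 (A X Y : Fin (1 + 5) → Fin (1 + 5) → ℝ) : T6 A X Y = T6 A Y X :=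
  (T6_symm A X Y A).2.1

private theorem qua_a1 (A Z X Y : Fin (1 + 5) → Fin (1 + 5) → ℝ) :
    T6 (A + Z) X Y = T6 A X Y + T6 Z X Y :=
  (T6_symm A X Y Z).2.2

private theorem qua_a2 (A X Z Y : Fin (1 + 5) → Fin (1 + 5) → ℝ) :
    T6 A (X + Z) Y = T6 A X Y + T6 A Z Y := by
  rw [qua_s1 A (X + Z) Y, qua_a1, qua_s1 X A Y, qua_s1 Z A Y]

private theorem qua_a3 (A X Y Z : Fin (1 + 5) → Fin (1 + 5) → ℝ) :
    T6 A X (Y + Z) = T6 A X Y + T6 A X Z := by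
  rw [qua_s2 A X (Y + Z), qua_a2, qua_s2 A Y X, qua_s2 A Z X]

private theorem qua_nine (B U V W : Fin (1 + 5) → Fin (1 + 5) → ℝ) :
    T6 B (U + V + W) (U + V + W) = T6 B U U + T6 B V V + T6 B W W + 2 * T6 B U V +
      2 * T6 B U W + 2 * T6 B V W := by
  simp only [qua_a2, qua_a3]
  rw [qua_s2 B V U, qua_s2 B W U, qua_s2 B W V]
  ring

/-- Rows t6t, t6s, t6z, t6a, t6b: split `fun a b => O (pr a b)` into its parts of type 2 and 0 (type 1 vanishes by `hC`; the type 2 part has value `1` at `(0, 1)`; `O (pr b a) = -O (pr a b)`, `O (pr a a) = 0` by `hO`) and `W` into types 2, 1, 0. What remains is `T6 A2 W0 W0 + 2 * T6 A0 W2 W0 + T6 A0 W1 W1`; `six` and `s4` only see the components they use. -/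
theorem quad_form (O : (Fin (1 + 1) → Fin (1 + 5)) → ℝ) (hO : Alt O) (h1 : O hd = 1)
    (hC : Cousin O) (W : Fin (1 + 5) → Fin (1 + 5) → ℝ) (hW : Asym W) :
    tri O W W = six W W + 2 * (W 0 1 * six (fun a b => O (pr a b)) W) -
      2 * s4 (fun i j => O (pr (tl i) (tl j))) (fun j => W 0 (tl j)) (fun j => W 1 (tl j)) := by
  rw [tri_T6]
  obtain ⟨A, hAd⟩ : ∃ A : Fin (1 + 5) → Fin (1 + 5) → ℝ, A = fun a b => O (pr a b) := ⟨_, rfl⟩
  have hAv : ∀ a b, O (pr a b) = A a b := fun a b => by rw [hAd]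
  rw [← hAd]
  simp only [hAv]
  have hA : Asym A := by
    intro a b
    rw [← hAv, ← hAv]
    have h := hO (pr a b) (Equiv.swap 0 1)
    have h2 : (fun r => pr a b ((Equiv.swap (0 : Fin (1 + 1)) 1) r)) = pr b a := by
      funext r
      rcases (qua_fin r) with hr | hr
      · rw [hr, Equiv.swap_apply_left]
        rfl
      · rw [hr, Equiv.swap_apply_right]
        rfl
    rw [h2] at h
    rw [h]
    have h3 : sg (Equiv.swap (0 : Fin (1 + 1)) 1) = -1 := by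
      unfold sg
      rw [Equiv.Perm.sign_swap (by decide)]
      norm_num
    rw [h3]
    ring
  have hA01 : A 0 1 = 1 := by
    rw [← hAv, ← h1]
    congr 1
    funext r
    rcases (qua_fin r) with hr | hr
    · rw [hr]
      rfl
    · rw [hr]
      rfl
  have hc1 : ∀ a b : Fin (1 + 5), a.1 < 2 → ¬ b.1 < 2 → A a b = 0 := by
    intro a b ha hb
    rw [← hAv]
    have hab : a ≠ b := fun h => hb (h ▸ ha)
    refine hC _ ?_ ⟨1, ⟨b.1 - 2, by omega⟩, ?_, ?_⟩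
    · intro r r' hrr
      rcases (qua_fin r) with hr | hr <;>
        rcases (qua_fin r') with hr' | hr'
      · rw [hr, hr']
      · rw [hr, hr'] at hrr
        exact absurd hrr hab
      · rw [hr, hr'] at hrr
        exact absurd hrr.symm hab
      · rw [hr, hr']
    · show b = tl ⟨b.1 - 2, by omega⟩
      refine Fin.ext ?_
      show b.1 = 1 + 1 + (b.1 - 2)
      omega
    · intro k hk
      have hk0 : k = 0 := (qua_fin k).resolve_right hk
      refine ⟨⟨a.1, by omega⟩, ?_⟩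
      rw [hk0]
      rfl
  have hA1 : qua_part 1 A = 0 := by
    funext a b
    show qua_part 1 A a b = 0
    unfold qua_part
    by_cases ha : a.1 < 2 <;> by_cases hb : b.1 < 2
    · simp [ha, hb]
    · rw [hc1 a b ha hb]
      simp
    · rw [hA b a, hc1 b a hb ha]
      simp
    · simp [ha, hb]
  have hAs : T6 A W W = T6 (qua_part 2 A) W W + T6 (qua_part 0 A) W W := by
    rw [← qua_a1]
    congr 1
    conv_lhs => rw [qua_split A, hA1, add_zero]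
  have e2 : T6 (qua_part 2 A) W W = six W W := by
    conv_lhs => rw [qua_split W, qua_nine]
    rw [T6_ty 2 2 2 _ _ _ (qua_ty 2 A) (qua_ty 2 W) (qua_ty 2 W) (by norm_num),
      T6_ty 2 1 1 _ _ _ (qua_ty 2 A) (qua_ty 1 W) (qua_ty 1 W) (by norm_num),
      T6_ty 2 2 1 _ _ _ (qua_ty 2 A) (qua_ty 2 W) (qua_ty 1 W) (by norm_num),
      T6_ty 2 2 0 _ _ _ (qua_ty 2 A) (qua_ty 2 W) (qua_ty 0 W) (by norm_num),
      T6_ty 2 1 0 _ _ _ (qua_ty 2 A) (qua_ty 1 W) (qua_ty 0 W) (by norm_num),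
      T6_two _ _ _ (qua_asym 2 A hA) (qua_asym 0 W hW) (qua_asym 0 W hW) (qua_ty 0 W) (qua_ty 0 W),
      qua_six, qua_two, hA01]
    ring
  have e0 : T6 (qua_part 0 A) W W = 2 * (W 0 1 * six A W) -
      2 * s4 (fun i j => A (tl i) (tl j)) (fun j => W 0 (tl j)) (fun j => W 1 (tl j)) := by
    conv_lhs => rw [qua_split W, qua_nine]
    rw [T6_ty 0 2 2 _ _ _ (qua_ty 0 A) (qua_ty 2 W) (qua_ty 2 W) (by norm_num),
      T6_ty 0 0 0 _ _ _ (qua_ty 0 A) (qua_ty 0 W) (qua_ty 0 W) (by norm_num),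
      T6_ty 0 2 1 _ _ _ (qua_ty 0 A) (qua_ty 2 W) (qua_ty 1 W) (by norm_num),
      T6_ty 0 1 0 _ _ _ (qua_ty 0 A) (qua_ty 1 W) (qua_ty 0 W) (by norm_num),
      T6_one _ _ (qua_asym 0 A hA) (qua_asym 1 W hW) (qua_ty 0 A) (qua_ty 1 W),
      qua_s1 (qua_part 0 A) (qua_part 2 W) (qua_part 0 W),
      T6_two _ _ _ (qua_asym 2 W hW) (qua_asym 0 A hA) (qua_asym 0 W hW) (qua_ty 0 A) (qua_ty 0 W),
      qua_six, qua_two]
    simp only [qua_tl, qua_one W 0 (by decide), qua_one W 1 (by decide)]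
    ring
  rw [hAs, e2, e0]
  ring
-- END qua

-- BEGIN ipw
/-- Expand the sums over `Fin 6`, `W b a = -W a b`, `W a a = 0`. -/
theorem ip_self_six (W : Fin (1 + 5) → Fin (1 + 5) → ℝ) (hW : Asym W) :
    ip W W = W 0 1 ^ 2 + ∑ j : Fin 4, W 0 (tl j) ^ 2 + ∑ j : Fin 4, W 1 (tl j) ^ 2 +
      (W (tl 0) (tl 1) ^ 2 + W (tl 0) (tl 2) ^ 2 + W (tl 0) (tl 3) ^ 2 + W (tl 1) (tl 2) ^ 2 +
        W (tl 1) (tl 3) ^ 2 + W (tl 2) (tl 3) ^ 2) := by
  have t0 : (tl 0 : Fin (1 + 5)) = 2 := by decide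
  have t1 : (tl 1 : Fin (1 + 5)) = 3 := by decide
  have t2 : (tl 2 : Fin (1 + 5)) = 4 := by decide
  have t3 : (tl 3 : Fin (1 + 5)) = 5 := by decide
  have key : ∀ f : Fin (1 + 5) → ℝ, ∑ a, f a = f 0 + f 1 + f 2 + f 3 + f 4 + f 5 := by
    intro f
    exact Fin.sum_univ_six f
  have hd : ∀ a, W a a = 0 := fun a => by
    have := hW a a
    linarith
  rw [ip, key]
  simp only [key, Fin.sum_univ_four, t0, t1, t2, t3]
  rw [hd 0, hd 1, hd 2, hd 3, hd 4, hd 5, hW 0 1, hW 0 2, hW 0 3, hW 0 4, hW 0 5, hW 1 2, hW 1 3,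
    hW 1 4, hW 1 5, hW 2 3, hW 2 4, hW 2 5, hW 3 4, hW 3 5, hW 4 5]
  ring
-- END ipw

-- BEGIN sdw
private noncomputable def sdw_e {q : ℕ} (i j : Fin 4) (a b : Fin (q + 5)) : ℝ :=
  (if a = tl i ∧ b = tl j then 1 else 0) - (if a = tl j ∧ b = tl i then 1 else 0)

private theorem sdw_ev {q : ℕ} (i j k l : Fin 4) : sdw_e (q := q) i j (tl k) (tl l) =
    (if k = i ∧ l = j then 1 else 0) - (if k = j ∧ l = i then 1 else 0) := by
  have hi : Function.Injective (tl : Fin 4 → Fin (q + 5)) := idx.2.2.2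
  unfold sdw_e
  simp only [hi.eq_iff]

private theorem sdw_as {q : ℕ} (i j : Fin 4) (a b : Fin (q + 5)) :
    sdw_e i j b a = -sdw_e i j a b := by
  unfold sdw_e
  rw [neg_sub]
  congr 1
  · simp only [and_comm]
  · simp only [and_comm]

private theorem sdw_hd {q : ℕ} (i j : Fin 4) (r : Fin (q + 1)) (b : Fin (q + 5)) :
    sdw_e i j (hd r) b = 0 := by
  have h1 : (hd r : Fin (q + 5)) ≠ tl i := idx.2.1 r i
  have h2 : (hd r : Fin (q + 5)) ≠ tl j := idx.2.1 r j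
  unfold sdw_e
  rw [if_neg fun h => h1 h.1, if_neg fun h => h2 h.1, sub_zero]

private noncomputable def sdw_X {q : ℕ} (α β γ : ℝ) (a b : Fin (q + 5)) : ℝ :=
  α * (sdw_e 0 1 a b - sdw_e 2 3 a b) + β * (sdw_e 0 2 a b - sdw_e 3 1 a b) +
    γ * (sdw_e 0 3 a b - sdw_e 1 2 a b)

/-- Test with the `IsASDForm` `X` with `X (tl 0) (tl 1) = 1`, `X (tl 2) (tl 3) = -1`, and so on (row ips for `ip X W`). -/
theorem orth_sd {q : ℕ} (W : Fin (q + 5) → Fin (q + 5) → ℝ) (hW : Asym W)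
    (h : ∀ X, IsASDForm X → ip W X = 0) : W (tl 2) (tl 3) = W (tl 0) (tl 1) ∧
      W (tl 3) (tl 1) = W (tl 0) (tl 2) ∧ W (tl 1) (tl 2) = W (tl 0) (tl 3) := by
  have key : ∀ α β γ : ℝ, α * (W (tl 0) (tl 1) - W (tl 2) (tl 3)) +
      β * (W (tl 0) (tl 2) + W (tl 1) (tl 3)) + γ * (W (tl 0) (tl 3) - W (tl 1) (tl 2)) = 0 := by
    intro α β γ
    have hA : Asym (sdw_X (q := q) α β γ) := by
      intro a b
      unfold sdw_X
      rw [sdw_as 0 1 a b, sdw_as 2 3 a b, sdw_as 0 2 a b, sdw_as 3 1 a b, sdw_as 0 3 a b,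
        sdw_as 1 2 a b]
      ring
    have hH : ∀ r b, sdw_X (q := q) α β γ (hd r) b = 0 := by
      intro r b
      unfold sdw_X
      rw [sdw_hd, sdw_hd, sdw_hd, sdw_hd, sdw_hd, sdw_hd]
      ring
    have v01 : sdw_X (q := q) α β γ (tl 0) (tl 1) = α := by
      unfold sdw_X
      rw [sdw_ev, sdw_ev, sdw_ev, sdw_ev, sdw_ev, sdw_ev]
      simp
    have v02 : sdw_X (q := q) α β γ (tl 0) (tl 2) = β := by
      unfold sdw_X
      rw [sdw_ev, sdw_ev, sdw_ev, sdw_ev, sdw_ev, sdw_ev]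
      simp
    have v03 : sdw_X (q := q) α β γ (tl 0) (tl 3) = γ := by
      unfold sdw_X
      rw [sdw_ev, sdw_ev, sdw_ev, sdw_ev, sdw_ev, sdw_ev]
      simp
    have v12 : sdw_X (q := q) α β γ (tl 1) (tl 2) = -γ := by
      unfold sdw_X
      rw [sdw_ev, sdw_ev, sdw_ev, sdw_ev, sdw_ev, sdw_ev]
      simp
    have v13 : sdw_X (q := q) α β γ (tl 1) (tl 3) = β := by
      unfold sdw_X
      rw [sdw_ev, sdw_ev, sdw_ev, sdw_ev, sdw_ev, sdw_ev]
      simp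
    have v23 : sdw_X (q := q) α β γ (tl 2) (tl 3) = -α := by
      unfold sdw_X
      rw [sdw_ev, sdw_ev, sdw_ev, sdw_ev, sdw_ev, sdw_ev]
      simp
    have h1 := h (sdw_X α β γ) ⟨hA, hH, by rw [v23, v01], by rw [hA (tl 1) (tl 3), v13, v02],
      by rw [v12, v03]⟩
    have h2 : ip W (sdw_X α β γ) = ip (sdw_X α β γ) W := by
      unfold ip
      congr 1
      exact Finset.sum_congr rfl fun a _ => Finset.sum_congr rfl fun b _ => mul_comm _ _
    rw [h2, ip_P _ _ hA hW hH, v01, v02, v03, v12, v13, v23] at h1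
    linarith
  have k1 := key 1 0 0
  have k2 := key 0 1 0
  have k3 := key 0 0 1
  have k4 := hW (tl 1) (tl 3)
  refine ⟨by linarith, by linarith, by linarith⟩
-- END sdw

-- BEGIN sca
/-- `|2 a (b · w)| ≤ 2 |a| |b| |w|` and `|b| < 2`: the form is `≥ a ^ 2 + 4 |w| ^ 2 - 2 |a| |b| |w|`; if `w ≠ 0` complete the square, if `w = 0` it is `a ^ 2`. For example `(a + b · w) ^ 2 + (4 |w| ^ 2 - (b · w) ^ 2)` and Cauchy-Schwarz. -/
theorem scalar_pos (a b1 b2 b3 w1 w2 w3 : ℝ) (hb : b1 ^ 2 + b2 ^ 2 + b3 ^ 2 < 4)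
    (h : a ≠ 0 ∨ w1 ≠ 0 ∨ w2 ≠ 0 ∨ w3 ≠ 0) :
    0 < a ^ 2 + 4 * (w1 ^ 2 + w2 ^ 2 + w3 ^ 2) + 2 * (a * (b1 * w1 + b2 * w2 + b3 * w3)) := by
  have hcs : (b1 * w1 + b2 * w2 + b3 * w3) ^ 2 ≤
      (b1 ^ 2 + b2 ^ 2 + b3 ^ 2) * (w1 ^ 2 + w2 ^ 2 + w3 ^ 2) := by
    nlinarith [sq_nonneg (b1 * w2 - b2 * w1), sq_nonneg (b1 * w3 - b3 * w1),
      sq_nonneg (b2 * w3 - b3 * w2)]
  have hid : a ^ 2 + 4 * (w1 ^ 2 + w2 ^ 2 + w3 ^ 2) + 2 * (a * (b1 * w1 + b2 * w2 + b3 * w3)) =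
      (a + (b1 * w1 + b2 * w2 + b3 * w3)) ^ 2 +
        (4 * (w1 ^ 2 + w2 ^ 2 + w3 ^ 2) - (b1 * w1 + b2 * w2 + b3 * w3) ^ 2) := by ring
  by_cases hw : w1 ^ 2 + w2 ^ 2 + w3 ^ 2 = 0
  · have h1 : w1 = 0 := by nlinarith [sq_nonneg w1, sq_nonneg w2, sq_nonneg w3]
    have h2 : w2 = 0 := by nlinarith [sq_nonneg w1, sq_nonneg w2, sq_nonneg w3]
    have h3 : w3 = 0 := by nlinarith [sq_nonneg w1, sq_nonneg w2, sq_nonneg w3]
    have ha : a ≠ 0 := by
      rcases h with h | h | h | h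
      · exact h
      · exact absurd h1 h
      · exact absurd h2 h
      · exact absurd h3 h
    subst h1; subst h2; subst h3
    have := pow_pos (abs_pos.mpr ha) 2
    rw [sq_abs] at this
    nlinarith
  · have hp : 0 < w1 ^ 2 + w2 ^ 2 + w3 ^ 2 :=
      lt_of_le_of_ne (by positivity) (Ne.symm hw)
    rw [hid]
    nlinarith [sq_nonneg (a + (b1 * w1 + b2 * w2 + b3 * w3)), mul_pos (sub_pos.mpr hb) hp]
-- END sca

-- BEGIN nds
/-- Let `O = cmp e Ω x` (row co2), `B i j = O (pr (tl i) (tl j))`, `W ≠ 0`. Rows sdw, ipw, qua: `ip W W + tri O W W = (a ^ 2 + 4 (w1 ^ 2 + w2 ^ 2 + w3 ^ 2) + 2 a (b · w)) + (|u| ^ 2 + |v| ^ 2 - 2 s4 B u v)` with `a = W 0 1`, `w1 = W (tl 0) (tl 1)`, `w2 = W (tl 0) (tl 2)`, `w3 = W (tl 0) (tl 3)`, `b = (B 0 1 + B 2 3, B 0 2 - B 1 3, B 0 3 + B 1 2)`, `u j = W 0 (tl j)`, `v j = W 1 (tl j)`. Rows pbd, sdl, sca, cst: both brackets are `≥ 0` and one is positive (if `u =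 v = 0` the second is `0`, if `a = w = 0` the first). -/
theorem nondeg_six (e : Fin (1 + 5) → E 1 → E 1) (Ω : E 1 → Form 1 (1 + 1)) (x : E 1)
    (hc : ComassLe e Ω x) (h1 : Calib e Ω x) (ho : OnlyPlane e Ω x) : NondegO (cmp e Ω x) := by
  intro W hW hor hne
  obtain ⟨hO, hC⟩ := cmp_props e Ω x hc h1
  have hq := quad_form (cmp e Ω x) hO h1 hC W hW
  have hi := ip_self_six W hW
  obtain ⟨e1, e2, e3⟩ := orth_sd W hW hor
  have hlt := pair_lt e Ω x hc ho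
  set B : Fin 4 → Fin 4 → ℝ := fun i j => cmp e Ω x (pr (tl i) (tl j)) with hBdef
  have hB : ∀ i j, B j i = -B i j := by
    intro i j
    have h := hO (pr (tl i) (tl j)) (Equiv.swap 0 1)
    have h2 : (fun r => pr (tl i) (tl j) ((Equiv.swap (0 : Fin (1 + 1)) 1) r)) =
        pr (tl j) (tl i) := by
      funext r
      fin_cases r <;> simp [pr]
    rw [h2] at h
    have h3 : sg (Equiv.swap (0 : Fin (1 + 1)) 1) = -1 := by
      unfold sg
      rw [Equiv.Perm.sign_swap (by decide)]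
      simp
    rw [h3] at h
    simpa [hBdef] using h
  have hb := sd_lt B hB hlt
  have e13 : W (tl 1) (tl 3) = -W (tl 0) (tl 2) := by rw [hW (tl 3) (tl 1), e2]
  have hs6 : six W W = 2 * (W (tl 0) (tl 1) ^ 2 + W (tl 0) (tl 2) ^ 2 + W (tl 0) (tl 3) ^ 2) := by
    unfold six
    rw [e1, e13, e3]
    ring
  have hsB : six (fun a b => cmp e Ω x (pr a b)) W =
      (B 0 1 + B 2 3) * W (tl 0) (tl 1) + (B 0 2 - B 1 3) * W (tl 0) (tl 2) +
        (B 0 3 + B 1 2) * W (tl 0) (tl 3) := by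
    unfold six
    rw [e1, e13, e3]
    simp only [hBdef]
    ring
  have key : ip W W + tri (cmp e Ω x) W W =
      (W 0 1 ^ 2 + 4 * (W (tl 0) (tl 1) ^ 2 + W (tl 0) (tl 2) ^ 2 + W (tl 0) (tl 3) ^ 2) +
        2 * (W 0 1 * ((B 0 1 + B 2 3) * W (tl 0) (tl 1) + (B 0 2 - B 1 3) * W (tl 0) (tl 2) +
          (B 0 3 + B 1 2) * W (tl 0) (tl 3)))) +
      (∑ j : Fin 4, W 0 (tl j) ^ 2 + ∑ j : Fin 4, W 1 (tl j) ^ 2 -
        2 * s4 B (fun j => W 0 (tl j)) (fun j => W 1 (tl j))) := by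
    rw [hq, hi, hs6, hsB, e1, e13, e3]
    ring
  rw [key]
  by_cases hw : W 0 1 ≠ 0 ∨ W (tl 0) (tl 1) ≠ 0 ∨ W (tl 0) (tl 2) ≠ 0 ∨ W (tl 0) (tl 3) ≠ 0
  · have p1 := scalar_pos (W 0 1) _ _ _ (W (tl 0) (tl 1)) (W (tl 0) (tl 2)) (W (tl 0) (tl 3)) hb hw
    have p2 : 0 ≤ ∑ j : Fin 4, W 0 (tl j) ^ 2 + ∑ j : Fin 4, W 1 (tl j) ^ 2 -
        2 * s4 B (fun j => W 0 (tl j)) (fun j => W 1 (tl j)) := by
      by_cases huv : (fun j : Fin 4 => W 0 (tl j)) ≠ 0 ∨ (fun j : Fin 4 => W 1 (tl j)) ≠ 0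
      · have := s4_lt B hB hlt _ _ huv
        linarith
      · rw [not_or, not_not, not_not] at huv
        have z0 : ∀ j : Fin 4, W 0 (tl j) = 0 := fun j => congrFun huv.1 j
        have z1 : ∀ j : Fin 4, W 1 (tl j) = 0 := fun j => congrFun huv.2 j
        simp [z0, z1, s4]
    linarith
  · push Not at hw
    obtain ⟨a0, a1, a2, a3⟩ := hw
    have huv : (fun j : Fin 4 => W 0 (tl j)) ≠ 0 ∨ (fun j : Fin 4 => W 1 (tl j)) ≠ 0 := by
      by_contra hcon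
      rw [not_or, not_not, not_not] at hcon
      apply hne
      have z0 : ∀ j : Fin 4, W 0 (tl j) = 0 := fun j => congrFun hcon.1 j
      have z1 : ∀ j : Fin 4, W 1 (tl j) = 0 := fun j => congrFun hcon.2 j
      have zz : ∀ a, W a a = 0 := fun a => by have := hW a a; linarith
      have z01 := a0
      have z02 : W 0 2 = 0 := z0 0
      have z03 : W 0 3 = 0 := z0 1
      have z04 : W 0 4 = 0 := z0 2
      have z05 : W 0 5 = 0 := z0 3
      have z12 : W 1 2 = 0 := z1 0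
      have z13 : W 1 3 = 0 := z1 1
      have z14 : W 1 4 = 0 := z1 2
      have z15 : W 1 5 = 0 := z1 3
      have z23 : W 2 3 = 0 := a1
      have z24 : W 2 4 = 0 := a2
      have z25 : W 2 5 = 0 := a3
      have z45 : W 4 5 = 0 := e1.trans a1
      have z53 : W 5 3 = 0 := e2.trans a2
      have z34 : W 3 4 = 0 := e3.trans a3
      have z35 : W 3 5 = 0 := by rw [hW 5 3, z53, neg_zero]
      funext a b
      show W a b = 0
      have key2 : ∀ a b : Fin (1 + 5), a < b → W a b = 0 := by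
        intro a b hab
        fin_cases a <;> fin_cases b <;> first | assumption | (exact absurd hab (by decide))
      rcases lt_trichotomy a b with h | h | h
      · exact key2 a b h
      · rw [h]; exact zz b
      · rw [hW b a, key2 b a h, neg_zero]
    have := s4_lt B hB hlt _ _ huv
    rw [a0, a1, a2, a3]
    linarith
-- END nds

end Pool.Agent.Oae
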