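import Pool.Agent.Oad.Fin
import Pool.Agent.Oad.Dec
import Pool.Agent.Oae.Six

/-!
Weak closedness for forms dominated by a decomposable form and for calibrated plane fields
-/

set_option autoImplicit false

namespace Pool.Agent.Oae

open MeasureTheory Set Matrix Filter Topology Pool.Agent.Oad
open scoped ContDiff

-- BEGIN fsk
/-- Swap the sums in `frF` and use `h`. -/
theorem frF_skew {n q : ℕ} (e : Fin (q + 5) → E q → E q)
    (F : E q → Fin (q + 5) → Fin (q + 5) → Mat n) (x : E q)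
    (h : ∀ i j, F x j i = -F x i j) (a b : Fin (q + 5)) : frF e F x b a = -frF e F x a b := by
  unfold frF
  rw [Finset.sum_comm, ← Finset.sum_neg_distrib]
  refine Finset.sum_congr rfl fun i _ => ?_
  rw [← Finset.sum_neg_distrib]
  refine Finset.sum_congr rfl fun j _ => ?_
  rw [h i j, smul_neg, mul_comm (e b x j)]
-- END fsk

-- BEGIN slv
/-- First case: `Y = 0`. Second case: rows du1, alm. Third case: `q = 1`, row nds. -/
theorem good_asd {q : ℕ} (e : Fin (q + 5) → E q → E q) (Ω : E q → Form q (q + 1)) (x : E q)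
    (hg : Good e Ω x) (Y : Fin (q + 5) → Fin (q + 5) → ℝ) (hY : Asym Y)
    (h : Eqn (cmp e Ω x) Y) : IsASDForm Y := by
  rcases hg with hg | ⟨h1, hg⟩
  · have h0 : Y = 0 := hg Y hY h
    subst h0
    refine ⟨fun a b => by simp, fun r b => rfl, ?_, ?_, ?_⟩ <;> simp
  · have hN : NondegO (cmp e Ω x) := by
      rcases hg with hg | ⟨hq, hc, ho⟩
      · exact hg
      · subst hq
        exact nondeg_six e Ω x hc h1 ho
    exact sol_asd (cmp e Ω x) (cmp_alt e Ω x) h1 hN Y hY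
      fun Z hZ => dual_of_eqn (cmp e Ω x) Y Z hY hZ h
-- END slv

-- BEGIN red
/-- Row mtr for `O = cmp e Ω x`, `O' = cmp e Ω' x` and `X = frF e F x`. -/
theorem asd_of_incl {n q : ℕ} (e : Fin (q + 5) → E q → E q) (Ω Ω' : E q → Form q (q + 1))
    (x : E q) (H : ∀ X, Asym X → Eqn (cmp e Ω x) X → Eqn (cmp e Ω' x) X)
    (F : E q → Fin (q + 5) → Fin (q + 5) → Mat n)
    (hF : ∀ i j, F x j i = -F x i j) (h : IsASD e Ω F x) : IsASD e Ω' F x :=
  mat_reduce (cmp e Ω x) (cmp e Ω' x) (frF e F x) (fun a b => frF_skew e F x hF a b) h H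
-- END red

-- BEGIN dom
/-- Row cof gives `Ω'` with components `vN`; rows slv, vna, du2. -/
theorem dominated_of_good {q : ℕ} (U : Set (E q)) (e : Fin (q + 5) → E q → E q)
    (he : IsFrame U e) (Ω : E q → Form q (q + 1)) (hg : ∀ x ∈ U, Good e Ω x) :
    Dominated U e Ω := by
  obtain ⟨Ω', hs, hd, hv⟩ := exists_coframe U e he
  refine ⟨Ω', hs, hd, fun x hx X hX hE => ?_⟩
  have h2 : cmp e Ω' x = vN := funext fun b => hv x hx b
  rw [h2]
  exact eqn_of_dual vN X hX fun Y hY => vN_asd X Y (good_asd e Ω x (hg x hx) X hX hE) hY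
-- END dom

-- BEGIN mcl
/-- Row red and `Oad.main_thm`. -/
theorem main_cal {n q : ℕ} (U K : Set (E q)) (hU : IsOpen U) (hK : IsOpen (U \ K))
    (h0 : μH[(q : ℝ) + 4] K = 0) (e : Fin (q + 5) → E q → E q) (he : IsFrame U e)
    (Ω : E q → Form q (q + 1)) (hD : Dominated U e Ω)
    (F : ℕ → E q → Fin (q + 5) → Fin (q + 5) → Mat n) (hF : ∀ k, IsCurvature U (F k))
    (hFe : ∀ k, ∀ x ∈ U, IsASD e Ω (F k) x)
    (G : E q → Fin (q + 5) → Fin (q + 5) → Mat n) (hG : IsCurvature (U \ K) G)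
    (hGe : ∀ x ∈ U \ K, IsASD e Ω G x) (hGi : LocallyIntegrableOn (nsq G) U)
    (C : (E q → Form q (q + 1)) → ℝ)
    (hC : ∀ φ : E q → Form q (q + 1), IsTest U φ →
      Tendsto (fun k => ∫ x, cw (F k) φ x) atTop
        (𝓝 ((∫ x, cw G φ x) + 8 * Real.pi ^ 2 * C φ)))
    (ψ : E q → Form q q) (hψ : IsTest U ψ) :
    C (extDeriv ψ) = 0 ∧ ∫ x, cw G (extDeriv ψ) x = 0 := by
  obtain ⟨Ω', hs, hd, hv⟩ := hD
  refine main_thm U K hU hK h0 e he Ω' hs hd F hF ?_ G hG ?_ hGi C hC ψ hψ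
  · intro k x hx
    exact asd_of_incl e Ω Ω' x (hv x hx) (F k)
      (fun i j => curvature_skew U (F k) (hF k) x hx i j) (hFe k x hx)
  · intro x hx
    exact asd_of_incl e Ω Ω' x (hv x hx.1) G
      (fun i j => curvature_skew (U \ K) G hG x hx i j) (hGe x hx)
-- END mcl

-- BEGIN unn
/-- The three cases: `q = 0` (every 1-form is decomposable), `Dominated`, `Good`. -/
theorem main_union {n q : ℕ} (U K : Set (E q)) (hU : IsOpen U) (hK : IsOpen (U \ K))
    (h0 : μH[(q : ℝ) + 4] K = 0) (e : Fin (q + 5) → E q → E q) (he : IsFrame U e)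
    (Ω : E q → Form q (q + 1)) (hΩ : ContDiffOn ℝ ∞ Ω U)
    (hD : q = 0 ∨ Dominated U e Ω ∨ ∀ x ∈ U, Good e Ω x)
    (F : ℕ → E q → Fin (q + 5) → Fin (q + 5) → Mat n) (hF : ∀ k, IsCurvature U (F k))
    (hFe : ∀ k, ∀ x ∈ U, IsASD e Ω (F k) x)
    (G : E q → Fin (q + 5) → Fin (q + 5) → Mat n) (hG : IsCurvature (U \ K) G)
    (hGe : ∀ x ∈ U \ K, IsASD e Ω G x) (hGi : LocallyIntegrableOn (nsq G) U)
    (C : (E q → Form q (q + 1)) → ℝ)
    (hC : ∀ φ : E q → Form q (q + 1), IsTest U φ →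
      Tendsto (fun k => ∫ x, cw (F k) φ x) atTop
        (𝓝 ((∫ x, cw G φ x) + 8 * Real.pi ^ 2 * C φ)))
    (ψ : E q → Form q q) (hψ : IsTest U ψ) :
    C (extDeriv ψ) = 0 ∧ ∫ x, cw G (extDeriv ψ) x = 0 := by
  have hD' : Dominated U e Ω := by
    rcases hD with h | h | h
    · exact ⟨Ω, hΩ, decomposable_of_zero h U Ω, fun x _ X _ hE => hE⟩
    · exact h
    · exact dominated_of_good U e he Ω h
  exact main_cal U K hU hK h0 e he Ω hD' F hF hFe G hG hGe hGi C hC ψ hψ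
-- END unn

end Pool.Agent.Oae
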