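import Pool.Agent.Oad.Alg
import Pool.Agent.Oae.Defs

/-!
Linear algebra of the equation `⋆X + Ω ∧ X = 0` when `Ω` calibrates a plane
-/

set_option autoImplicit false

namespace Pool.Agent.Oae

open MeasureTheory Set Matrix Pool.Agent.Oad
open scoped ContDiff

/-- the components of `e^0 ∧ … ∧ e^q` -/
noncomputable def vN {q : ℕ} (b : Fin (q + 1) → Fin (q + 5)) : ℝ :=
  (Matrix.of fun r s : Fin (q + 1) => if b s = hd r then (1 : ℝ) else 0).det

/-- `O` is alternating -/
def Alt {q : ℕ} (O : (Fin (q + 1) → Fin (q + 5)) → ℝ) : Prop :=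
  ∀ (b : Fin (q + 1) → Fin (q + 5)) (σ : Equiv.Perm (Fin (q + 1))),
    O (fun r => b (σ r)) = sg σ * O b

/-- the first cousins of `N` vanish: `O b = 0` if exactly one of the indices `b r` is one of the
last four, the others being distinct ones of the first `q + 1` -/
def Cousin {q : ℕ} (O : (Fin (q + 1) → Fin (q + 5)) → ℝ) : Prop :=
  ∀ b : Fin (q + 1) → Fin (q + 5), Function.Injective b →
    (∃ r j, b r = tl j ∧ ∀ k, k ≠ r → ∃ l, b k = hd l) → O b = 0

/-- the six term expression `X ∧ Y` on `P` -/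
def six {q : ℕ} (X Y : Fin (q + 5) → Fin (q + 5) → ℝ) : ℝ :=
  X (tl 0) (tl 1) * Y (tl 2) (tl 3) - X (tl 0) (tl 2) * Y (tl 1) (tl 3) +
    X (tl 0) (tl 3) * Y (tl 1) (tl 2) + X (tl 1) (tl 2) * Y (tl 0) (tl 3) -
    X (tl 1) (tl 3) * Y (tl 0) (tl 2) + X (tl 2) (tl 3) * Y (tl 0) (tl 1)

-- BEGIN idx
/-- Every index is `hd r` or `tl j`, never both; `hd`, `tl` are injective (`Fin.ext`, `omega`, `fin_cases`). -/
theorem idx {q : ℕ} :
    (∀ k : Fin (q + 5), (∃ r, k = hd r) ∨ ∃ j, k = tl j) ∧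
      (∀ (r : Fin (q + 1)) (j : Fin 4), (hd r : Fin (q + 5)) ≠ tl j) ∧
      Function.Injective (hd : Fin (q + 1) → Fin (q + 5)) ∧
      Function.Injective (tl : Fin 4 → Fin (q + 5)) := by
  refine ⟨fun k => ?_, fun r j h => ?_, fun r r' h => ?_, fun j j' h => ?_⟩
  · by_cases hk : (k : ℕ) < q + 1
    · exact Or.inl ⟨⟨k, hk⟩, Fin.ext (by simp [hd])⟩
    · exact Or.inr ⟨⟨k - (q + 1), by have := k.2; omega⟩, Fin.ext (by simp [tl]; omega)⟩
  · have := congrArg Fin.val h
    simp only [hd, tl] at this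
    have h1 := r.2
    omega
  · have := congrArg Fin.val h
    simp [hd] at this
    exact Fin.ext this
  · have := congrArg Fin.val h
    simp [tl] at this
    exact Fin.ext this
-- END idx

-- BEGIN cmb
/-- `finSumFinEquiv` transports `Equiv.Perm.sumCongr σ ρ` (sign: `Equiv.Perm.sign_sumCongr`, `Equiv.Perm.sign_symm_trans_trans`) to `Fin (q + 1 + 4)`, which is `Fin (q + 5)`. -/
theorem exists_cmb {q : ℕ} : ∃ cmb : Equiv.Perm (Fin (q + 1)) → Equiv.Perm (Fin 4) →
    Equiv.Perm (Fin (q + 5)), ∀ σ ρ, (∀ r, cmb σ ρ (hd r) = hd (σ r)) ∧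
      (∀ j, cmb σ ρ (tl j) = tl (ρ j)) ∧ sg (cmb σ ρ) = sg σ * sg ρ := by
  refine ⟨fun σ ρ => (finSumFinEquiv (m := q + 1) (n := 4)).permCongr
    (Equiv.Perm.sumCongr σ ρ), fun σ ρ => ⟨fun r => ?_, fun j => ?_, ?_⟩⟩
  · have h1 : ∀ r : Fin (q + 1), (hd r : Fin (q + 5)) =
        (finSumFinEquiv (m := q + 1) (n := 4)) (Sum.inl r) := by
      intro r
      rw [finSumFinEquiv_apply_left]
      exact Fin.ext rfl
    rw [h1, h1, Equiv.permCongr_apply, Equiv.symm_apply_apply]
    rfl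
  · have h1 : ∀ j : Fin 4, (tl j : Fin (q + 5)) =
        (finSumFinEquiv (m := q + 1) (n := 4)) (Sum.inr j) := by
      intro j
      rw [finSumFinEquiv_apply_right]
      exact Fin.ext rfl
    rw [h1, h1, Equiv.permCongr_apply, Equiv.symm_apply_apply]
    rfl
  · have h1 : Equiv.Perm.sign ((finSumFinEquiv (m := q + 1) (n := 4)).permCongr
        (Equiv.Perm.sumCongr σ ρ)) = Equiv.Perm.sign σ * Equiv.Perm.sign ρ := by
      rw [Equiv.Perm.sign_permCongr, Equiv.Perm.sign_sumCongr]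
    unfold sg
    have h2 := congrArg (fun u : ℤˣ => ((u : ℤ) : ℝ)) h1
    simp only [Units.val_mul, Int.cast_mul] at h2
    exact h2
-- END cmb

-- BEGIN spt
/-- The permutations which map the `hd r` among themselves are exactly the `cmb σ ρ` of row cmb, each once (`Finset.sum_bij` or `Fintype.sum_of_injective` over pairs); for such a term `O (s ∘ hd) = sg σ * O hd` (`hO`), so the sum over `σ` gives the factor `(q + 1)!`. -/
theorem sum_block {q : ℕ} (O : (Fin (q + 1) → Fin (q + 5)) → ℝ) (hO : Alt O)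
    (G : Fin (q + 5) → Fin (q + 5) → Fin (q + 5) → Fin (q + 5) → ℝ)
    (hz : ∀ s : Equiv.Perm (Fin (q + 5)), (∃ r j, s (hd r) = tl j) →
      O (fun r => s (hd r)) * G (s (tl 0)) (s (tl 1)) (s (tl 2)) (s (tl 3)) = 0) :
    ∑ s : Equiv.Perm (Fin (q + 5)), sg s *
      (O (fun r => s (hd r)) * G (s (tl 0)) (s (tl 1)) (s (tl 2)) (s (tl 3))) =
      (Nat.factorial (q + 1) : ℝ) * (O hd * ∑ ρ : Equiv.Perm (Fin 4), sg ρ *
        G (tl (ρ 0)) (tl (ρ 1)) (tl (ρ 2)) (tl (ρ 3))) := by
  obtain ⟨cmb, hc⟩ := exists_cmb (q := q)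
  obtain ⟨i1, i2, i3, i4⟩ := idx (q := q)
  have hinj : Function.Injective
      (fun p : Equiv.Perm (Fin (q + 1)) × Equiv.Perm (Fin 4) => cmb p.1 p.2) := by
    rintro ⟨σ, ρ⟩ ⟨σ', ρ'⟩ he
    have he' : cmb σ ρ = cmb σ' ρ' := he
    have e1 : σ = σ' := by
      ext r
      have h1 := (hc σ ρ).1 r
      have h2 := (hc σ' ρ').1 r
      rw [he', h2] at h1
      exact congrArg Fin.val (i3 h1).symm
    have e2 : ρ = ρ' := by
      ext j
      have h1 := (hc σ ρ).2.1 j
      have h2 := (hc σ' ρ').2.1 j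
      rw [he', h2] at h1
      exact congrArg Fin.val (i4 h1).symm
    rw [e1, e2]
  have hsg : ∀ σ : Equiv.Perm (Fin (q + 1)), sg σ * sg σ = 1 := by
    intro σ
    rcases Int.units_eq_one_or (Equiv.Perm.sign σ) with h | h <;> simp [sg, h]
  have hL := Fintype.sum_of_injective
    (fun p : Equiv.Perm (Fin (q + 1)) × Equiv.Perm (Fin 4) => cmb p.1 p.2) hinj
    (fun p => O hd * (sg p.2 * G (tl (p.2 0)) (tl (p.2 1)) (tl (p.2 2)) (tl (p.2 3))))
    (fun s : Equiv.Perm (Fin (q + 5)) => sg s *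
      (O (fun r => s (hd r)) * G (s (tl 0)) (s (tl 1)) (s (tl 2)) (s (tl 3))))
    (by
      intro s hs
      by_cases hx : ∃ r j, s (hd r) = tl j
      · show sg s * _ = 0
        rw [hz s hx, mul_zero]
      · exfalso
        apply hs
        have hf : ∀ r, ∃ r', s (hd r) = hd r' := by
          intro r
          rcases i1 (s (hd r)) with h | ⟨j, hj⟩
          · exact h
          · exact absurd ⟨r, j, hj⟩ hx
        choose f hf using hf
        have hfi : Function.Injective f := by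
          intro r r' h
          have h1 : s (hd r) = s (hd r') := by rw [hf r, hf r', h]
          exact i3 (s.injective h1)
        have hfb : Function.Bijective f := Finite.injective_iff_bijective.1 hfi
        have hg : ∀ j, ∃ j', s (tl j) = tl j' := by
          intro j
          rcases i1 (s (tl j)) with ⟨r', hr'⟩ | h
          · exfalso
            obtain ⟨r, hr⟩ := hfb.2 r'
            have h1 : s (hd r) = s (tl j) := by rw [hf r, hr, hr']
            exact i2 r j (s.injective h1)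
          · exact h
        choose g hg using hg
        have hgi : Function.Injective g := by
          intro j j' h
          have h1 : s (tl j) = s (tl j') := by rw [hg j, hg j', h]
          exact i4 (s.injective h1)
        have hgb : Function.Bijective g := Finite.injective_iff_bijective.1 hgi
        refine ⟨⟨Equiv.ofBijective f hfb, Equiv.ofBijective g hgb⟩, ?_⟩
        refine Equiv.ext fun k => ?_
        rcases i1 k with ⟨r, rfl⟩ | ⟨j, rfl⟩
        · exact ((hc _ _).1 r).trans (hf r).symm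
        · exact ((hc _ _).2.1 j).trans (hg j).symm)
    (by
      rintro ⟨σ, ρ⟩
      obtain ⟨c1, c2, c3⟩ := hc σ ρ
      show O hd * (sg ρ * G (tl (ρ 0)) (tl (ρ 1)) (tl (ρ 2)) (tl (ρ 3))) =
        sg (cmb σ ρ) * (O (fun r => cmb σ ρ (hd r)) * G (cmb σ ρ (tl 0)) (cmb σ ρ (tl 1))
          (cmb σ ρ (tl 2)) (cmb σ ρ (tl 3)))
      have e1 : (fun r => cmb σ ρ (hd r)) = fun r => (hd (σ r) : Fin (q + 5)) := funext c1
      rw [e1, c2, c2, c2, c2, c3, hO hd σ]
      calc O hd * (sg ρ * G (tl (ρ 0)) (tl (ρ 1)) (tl (ρ 2)) (tl (ρ 3))) =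
          (sg σ * sg σ) * (O hd * (sg ρ * G (tl (ρ 0)) (tl (ρ 1)) (tl (ρ 2)) (tl (ρ 3)))) := by
            rw [hsg, one_mul]
        _ = _ := by ring)
  rw [← hL, Fintype.sum_prod_type]
  simp only [Finset.sum_const, Finset.card_univ, Fintype.card_perm, Fintype.card_fin,
    nsmul_eq_mul, Finset.mul_sum]
-- END spt

-- BEGIN s24
private def s24_tbl : Fin 4 → Fin 3 → Fin 2 → Fin 4 → Fin 4 :=
  ![![![![0, 1, 2, 3], ![0, 1, 3, 2]], ![![0, 2, 1, 3], ![0, 2, 3, 1]], ![![0, 3, 2, 1], ![0, 3, 1, 2]]],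
    ![![![1, 0, 2, 3], ![1, 0, 3, 2]], ![![1, 2, 0, 3], ![1, 2, 3, 0]], ![![1, 3, 2, 0], ![1, 3, 0, 2]]],
    ![![![2, 1, 0, 3], ![2, 1, 3, 0]], ![![2, 0, 1, 3], ![2, 0, 3, 1]], ![![2, 3, 0, 1], ![2, 3, 1, 0]]],
    ![![![3, 1, 2, 0], ![3, 1, 0, 2]], ![![3, 2, 1, 0], ![3, 2, 0, 1]], ![![3, 0, 2, 1], ![3, 0, 1, 2]]]]

private theorem s24_val : ∀ (p : Fin 4) (p' : Fin 3) (p'' : Fin 2) (i : Fin 4),
    (Equiv.Perm.decomposeFin.symm (p, Equiv.Perm.decomposeFin.symm (p',
      Equiv.Perm.decomposeFin.symm (p'', (1 : Equiv.Perm (Fin 1)))))) i = s24_tbl p p' p'' i := by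
  decide

private theorem s24_sum (f : Equiv.Perm (Fin 4) → ℝ) :
    ∑ ρ, f ρ = ∑ p : Fin 4, ∑ p' : Fin 3, ∑ p'' : Fin 2,
      f (Equiv.Perm.decomposeFin.symm (p, Equiv.Perm.decomposeFin.symm (p',
        Equiv.Perm.decomposeFin.symm (p'', (1 : Equiv.Perm (Fin 1)))))) := by
  rw [← Equiv.sum_comp Equiv.Perm.decomposeFin.symm, Fintype.sum_prod_type]
  refine Finset.sum_congr rfl fun p _ => ?_
  rw [← Equiv.sum_comp Equiv.Perm.decomposeFin.symm, Fintype.sum_prod_type]
  refine Finset.sum_congr rfl fun p' _ => ?_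
  rw [← Equiv.sum_comp Equiv.Perm.decomposeFin.symm, Fintype.sum_prod_type]
  refine Finset.sum_congr rfl fun p'' _ => ?_
  rw [Fintype.sum_unique]
  rfl

/-- The 24 permutations of `Fin 4`, four equal terms for each of the six terms of `six` (for example group by `ρ ↦ ρ * swap 0 1`, `ρ * swap 2 3`, or list `Finset.univ` by `decide`). -/
theorem sum_24 {q : ℕ} (X Y : Fin (q + 5) → Fin (q + 5) → ℝ) (hX : Asym X) (hY : Asym Y) :
    ∑ ρ : Equiv.Perm (Fin 4), sg ρ * (X (tl (ρ 0)) (tl (ρ 1)) * Y (tl (ρ 2)) (tl (ρ 3))) =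
      4 * six X Y := by
  rw [s24_sum]
  have hs : ∀ (p : Fin 4) (p' : Fin 3) (p'' : Fin 2),
      sg (Equiv.Perm.decomposeFin.symm (p, Equiv.Perm.decomposeFin.symm (p',
        Equiv.Perm.decomposeFin.symm (p'', (1 : Equiv.Perm (Fin 1)))))) =
      (if p = 0 then 1 else -1) * ((if p' = 0 then 1 else -1) * (if p'' = 0 then 1 else -1)) := by
    intro p p' p''
    unfold sg
    rw [Equiv.Perm.decomposeFin.symm_sign, Equiv.Perm.decomposeFin.symm_sign,
      Equiv.Perm.decomposeFin.symm_sign, Equiv.Perm.sign_one]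
    split_ifs <;> simp
  simp only [s24_val, hs, Fin.sum_univ_four, Fin.sum_univ_three, Fin.sum_univ_two, s24_tbl]
  simp only [Matrix.cons_val_zero, Matrix.cons_val_one, Matrix.cons_val, if_true,
    show ¬ ((1 : Fin 4) = 0) by decide, show ¬ ((2 : Fin 4) = 0) by decide,
    show ¬ ((3 : Fin 4) = 0) by decide, show ¬ ((1 : Fin 3) = 0) by decide,
    show ¬ ((2 : Fin 3) = 0) by decide, show ¬ ((1 : Fin 2) = 0) by decide, if_false]
  rw [hX (tl 0) (tl 1), hX (tl 0) (tl 2), hX (tl 0) (tl 3), hX (tl 1) (tl 2), hX (tl 1) (tl 3),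
    hX (tl 2) (tl 3), hY (tl 0) (tl 1), hY (tl 0) (tl 2), hY (tl 0) (tl 3), hY (tl 1) (tl 2),
    hY (tl 1) (tl 3), hY (tl 2) (tl 3)]
  unfold six
  ring
-- END s24

-- BEGIN tpp
/-- Rows spt, s24: a term with `s (hd r) = tl j` has some `s (tl i)` among the `hd`, where `X` or `Y` vanishes. -/
theorem tri_PP {q : ℕ} (O : (Fin (q + 1) → Fin (q + 5)) → ℝ) (hO : Alt O)
    (X Y : Fin (q + 5) → Fin (q + 5) → ℝ) (hX : Asym X) (hY : Asym Y)
    (hX0 : ∀ r b, X (hd r) b = 0) (hY0 : ∀ r b, Y (hd r) b = 0) :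
    tri O X Y = O hd * six X Y := by
  obtain ⟨hcov, hne, -, hti⟩ := idx (q := q)
  have hz : ∀ s : Equiv.Perm (Fin (q + 5)), (∃ r j, s (hd r) = tl j) →
      O (fun r => s (hd r)) *
        (fun a b c d => X a b * Y c d) (s (tl 0)) (s (tl 1)) (s (tl 2)) (s (tl 3)) = 0 := by
    rintro s ⟨r, j, hrj⟩
    have hex : ∃ i r', s (tl i) = hd r' := by
      by_contra hcon
      have h1 : ∀ i, ∃ j', s (tl i) = tl j' := by
        intro i
        rcases hcov (s (tl i)) with ⟨r', h⟩ | ⟨j', h⟩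
        · exact absurd ⟨i, r', h⟩ hcon
        · exact ⟨j', h⟩
      choose f hf using h1
      have hfi : Function.Injective f := by
        intro a b hab
        apply hti
        apply s.injective
        rw [hf a, hf b, hab]
      obtain ⟨i, hi⟩ := (Finite.injective_iff_surjective.mp hfi) j
      have h2 : s (hd r) = s (tl i) := by rw [hf i, hi, hrj]
      exact hne r i (s.injective h2)
    obtain ⟨i, r', hir⟩ := hex
    have hXz : ∀ a, X a (hd r') = 0 := fun a => by rw [hX (hd r') a, hX0, neg_zero]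
    have hYz : ∀ a, Y a (hd r') = 0 := fun a => by rw [hY (hd r') a, hY0, neg_zero]
    have hi4 : i = 0 ∨ i = 1 ∨ i = 2 ∨ i = 3 := by
      fin_cases i <;> simp
    rcases hi4 with h | h | h | h <;> subst h
    · simp only [hir, hX0, zero_mul, mul_zero]
    · simp only [hir, hXz, zero_mul, mul_zero]
    · simp only [hir, hY0, mul_zero]
    · simp only [hir, hYz, mul_zero]
  have hsum := sum_block O hO (fun a b c d => X a b * Y c d) hz
  have h24 := sum_24 X Y hX hY
  have hf : (Nat.factorial (q + 1) : ℝ) ≠ 0 := by exact_mod_cast Nat.factorial_ne_zero _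
  unfold tri
  have h3 : ∑ s : Equiv.Perm (Fin (q + 5)),
      sg s * (O (fun r => s (hd r)) * (X (s (tl 0)) (s (tl 1)) * Y (s (tl 2)) (s (tl 3)))) =
      (Nat.factorial (q + 1) : ℝ) * (O hd * (4 * six X Y)) := by
    rw [← h24]
    exact hsum
  rw [h3]
  field_simp
-- END tpp

-- BEGIN tvn
/-- Rows spt, s24: `vN (s ∘ hd) = 0` if `s (hd r) = tl j` (a zero column), and `vN hd = 1`; `vN` is alternating (row ant of `Oad.Alg`, `comp_alt`, with `T r a = if a = hd r then 1 else 0`). -/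
theorem tri_vN {q : ℕ} (X Y : Fin (q + 5) → Fin (q + 5) → ℝ) (hX : Asym X) (hY : Asym Y) :
    tri vN X Y = six X Y := by
  have halt : Alt (vN : (Fin (q + 1) → Fin (q + 5)) → ℝ) := fun b σ =>
    comp_alt (fun r a => if a = hd r then (1 : ℝ) else 0) vN (fun _ => rfl) b σ
  have hz : ∀ s : Equiv.Perm (Fin (q + 5)), (∃ r j, s (hd r) = tl j) →
      (vN (fun r : Fin (q + 1) => s (hd r)) : ℝ) *
        (fun a b c d => X a b * Y c d) (s (tl 0)) (s (tl 1)) (s (tl 2)) (s (tl 3)) = 0 := by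
    rintro s ⟨r, j, hr⟩
    have h0 : (vN (fun r : Fin (q + 1) => s (hd r)) : ℝ) = 0 := by
      refine Matrix.det_eq_zero_of_column_eq_zero r fun i => ?_
      rw [Matrix.of_apply, if_neg]
      show ¬ s (hd r) = hd i
      rw [hr]
      exact (idx.2.1 i j).symm
    rw [h0, zero_mul]
  have h1 : (vN (hd : Fin (q + 1) → Fin (q + 5)) : ℝ) = 1 := by
    have h2 : (Matrix.of fun r s : Fin (q + 1) =>
        if (hd s : Fin (q + 5)) = hd r then (1 : ℝ) else 0) = 1 := by
      ext r s
      rw [Matrix.of_apply, Matrix.one_apply]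
      by_cases h : r = s
      · rw [if_pos h, if_pos (congrArg hd h.symm)]
      · rw [if_neg h, if_neg fun h' => h (idx.2.2.1 h').symm]
    exact (congrArg Matrix.det h2).trans Matrix.det_one
  have h3 := sum_block vN halt (fun a b c d => X a b * Y c d) hz
  have h4 : ((Nat.factorial (q + 1) : ℕ) : ℝ) ≠ 0 := Nat.cast_ne_zero.2 (Nat.factorial_ne_zero _)
  unfold tri
  refine (congrArg (fun z => (1 / (4 * (Nat.factorial (q + 1) : ℝ))) * z) h3).trans ?_
  simp only [h1, one_mul]
  rw [sum_24 X Y hX hY]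
  field_simp
-- END tvn

-- BEGIN tp1
private theorem tp1_key {q : ℕ} (s : Equiv.Perm (Fin (q + 5))) (i3 : Fin 4)
    (h3 : ∃ l : Fin (q + 1), s (tl i3) = hd l) (h : ∀ i, i ≠ i3 → ∃ j : Fin 4, s (tl i) = tl j) :
    ∃ r j, s (hd r) = tl j ∧ ∀ k, k ≠ r → ∃ l, s (hd k) = hd l := by
  classical
  obtain ⟨hA, hB, hC, hD⟩ := idx (q := q)
  set T : Finset (Fin (q + 5)) := Finset.univ.image (fun j : Fin 4 => s.symm (tl j)) with hT
  set U : Finset (Fin (q + 5)) := (Finset.univ.erase i3).image (tl : Fin 4 → Fin (q + 5)) with hU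
  have hTc : T.card = 4 := by
    rw [hT, Finset.card_image_of_injective (f := fun j : Fin 4 => s.symm (tl j)) _
      fun a b hab => hD (s.symm.injective hab), Finset.card_univ, Fintype.card_fin]
  have hUc : U.card = 3 := by
    rw [hU, Finset.card_image_of_injective _ hD, Finset.card_erase_of_mem (Finset.mem_univ _),
      Finset.card_univ, Fintype.card_fin]
  have hUT : U ⊆ T := by
    intro k hk
    obtain ⟨i, hi, rfl⟩ := Finset.mem_image.1 hk
    obtain ⟨j, hj⟩ := h i (Finset.ne_of_mem_erase hi)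
    exact Finset.mem_image.2 ⟨j, Finset.mem_univ _, by rw [← hj, Equiv.symm_apply_apply]⟩
  have h1 : (T \ U).card = 1 := by
    rw [Finset.card_sdiff_of_subset hUT, hTc, hUc]
  obtain ⟨k0, hk0⟩ := Finset.card_eq_one.1 h1
  have hk1 : k0 ∈ T \ U := by rw [hk0]; exact Finset.mem_singleton_self _
  obtain ⟨hkT, hkU⟩ := Finset.mem_sdiff.1 hk1
  obtain ⟨j, _, hj⟩ := Finset.mem_image.1 hkT
  have hsk : s k0 = tl j := by rw [← hj, Equiv.apply_symm_apply]
  rcases hA k0 with ⟨r, hr⟩ | ⟨i, hi⟩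
  · refine ⟨r, j, by rw [← hr]; exact hsk, fun k hk => ?_⟩
    rcases hA (s (hd k)) with ⟨l, hl⟩ | ⟨j', hj'⟩
    · exact ⟨l, hl⟩
    · exfalso
      have h2 : (hd k : Fin (q + 5)) ∈ T \ U := by
        refine Finset.mem_sdiff.2 ⟨Finset.mem_image.2 ⟨j', Finset.mem_univ _, ?_⟩, fun h4 => ?_⟩
        · rw [← hj', Equiv.symm_apply_apply]
        · obtain ⟨i, _, hi⟩ := Finset.mem_image.1 h4
          exact hB k i hi.symm
      rw [hk0, Finset.mem_singleton, hr] at h2
      exact hk (hC h2)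
  · exfalso
    by_cases h5 : i = i3
    · obtain ⟨l, hl⟩ := h3
      rw [← h5, ← hi, hsk] at hl
      exact hB l j hl.symm
    · exact hkU (Finset.mem_image.2 ⟨i, Finset.mem_erase.2 ⟨h5, Finset.mem_univ _⟩, hi.symm⟩)

/-- Every term is `0`: if `X (s (tl 0)) (s (tl 1)) ≠ 0` both indices are of type `tl`, if `Y (s (tl 2)) (s (tl 3)) ≠ 0` exactly one is, so exactly one `s (hd r)` is of type `tl`, and `O (s ∘ hd) = 0` by `hC`. -/
theorem tri_P1 {q : ℕ} (O : (Fin (q + 1) → Fin (q + 5)) → ℝ) (hC : Cousin O)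
    (X Y : Fin (q + 5) → Fin (q + 5) → ℝ) (hX : Asym X) (hY : Asym Y)
    (hX0 : ∀ r b, X (hd r) b = 0) (hY0 : ∀ r r', Y (hd r) (hd r') = 0)
    (hY1 : ∀ i j, Y (tl i) (tl j) = 0) : tri O X Y = 0 := by
  obtain ⟨hA, -, hinj, -⟩ := idx (q := q)
  unfold tri
  rw [Finset.sum_eq_zero, mul_zero]
  intro s _
  by_cases hx : X (s (tl 0)) (s (tl 1)) = 0
  · rw [hx]; ring
  by_cases hy : Y (s (tl 2)) (s (tl 3)) = 0
  · rw [hy]; ring
  have h0 : ∃ j, s (tl 0) = tl j := by
    rcases hA (s (tl 0)) with ⟨r, hr⟩ | h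
    · exact absurd (by rw [hr]; exact hX0 r _) hx
    · exact h
  have h1 : ∃ j, s (tl 1) = tl j := by
    rcases hA (s (tl 1)) with ⟨r, hr⟩ | h
    · refine absurd ?_ hx
      rw [hX (s (tl 1)) (s (tl 0)), hr, hX0, neg_zero]
    · exact h
  have hO : O (fun r => s (hd r)) = 0 := by
    refine hC _ (s.injective.comp hinj) ?_
    rcases hA (s (tl 2)) with ⟨r, hr⟩ | ⟨i, hi⟩
    · rcases hA (s (tl 3)) with ⟨r', hr'⟩ | h3
      · exact absurd (by rw [hr, hr']; exact hY0 _ _) hy
      · refine tp1_key s 2 ⟨r, hr⟩ fun i hi => ?_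
        fin_cases i
        · exact h0
        · exact h1
        · exact absurd rfl hi
        · exact h3
    · rcases hA (s (tl 3)) with h3 | ⟨j, hj⟩
      · refine tp1_key s 3 h3 fun k hk => ?_
        fin_cases k
        · exact h0
        · exact h1
        · exact ⟨i, hi⟩
        · exact absurd rfl hk
      · exact absurd (by rw [hi, hj]; exact hY1 _ _) hy
  rw [hO]
  ring
-- END tp1

-- BEGIN tsy
/-- Symmetry: `s ↦ s * τ` with `τ = (tl 0 tl 2)(tl 1 tl 3)` (even, fixes all `hd r`), `sum_perm`. Additivity: distribute. -/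
theorem tri_symm_add {q : ℕ} (O : (Fin (q + 1) → Fin (q + 5)) → ℝ)
    (X Y Z : Fin (q + 5) → Fin (q + 5) → ℝ) :
    tri O X Y = tri O Y X ∧
      tri O X (fun a b => Y a b + Z a b) = tri O X Y + tri O X Z ∧
      tri O (fun a b => X a b + Y a b) Z = tri O X Z + tri O Y Z := by
  refine ⟨?_, ?_, ?_⟩
  · obtain ⟨-, hB, -, hD⟩ := idx (q := q)
    have ne : ∀ i j : Fin 4, i ≠ j → (tl i : Fin (q + 5)) ≠ tl j := fun i j h h' => h (hD h')
    set τ : Equiv.Perm (Fin (q + 5)) := Equiv.swap (tl 0) (tl 2) * Equiv.swap (tl 1) (tl 3) with hτ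
    have hsg : Equiv.Perm.sign τ = 1 := by
      rw [hτ, Equiv.Perm.sign_mul, Equiv.Perm.sign_swap (ne 0 2 (by decide)),
        Equiv.Perm.sign_swap (ne 1 3 (by decide))]
      rfl
    have t0 : τ (tl 0) = tl 2 := by
      rw [hτ, Equiv.Perm.mul_apply, Equiv.swap_apply_of_ne_of_ne (ne 0 1 (by decide))
        (ne 0 3 (by decide)), Equiv.swap_apply_left]
    have t1 : τ (tl 1) = tl 3 := by
      rw [hτ, Equiv.Perm.mul_apply, Equiv.swap_apply_left,
        Equiv.swap_apply_of_ne_of_ne (ne 3 0 (by decide)) (ne 3 2 (by decide))]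
    have t2 : τ (tl 2) = tl 0 := by
      rw [hτ, Equiv.Perm.mul_apply, Equiv.swap_apply_of_ne_of_ne (ne 2 1 (by decide))
        (ne 2 3 (by decide)), Equiv.swap_apply_right]
    have t3 : τ (tl 3) = tl 1 := by
      rw [hτ, Equiv.Perm.mul_apply, Equiv.swap_apply_right,
        Equiv.swap_apply_of_ne_of_ne (ne 1 0 (by decide)) (ne 1 2 (by decide))]
    have th : ∀ r : Fin (q + 1), τ (hd r) = hd r := by
      intro r
      rw [hτ, Equiv.Perm.mul_apply, Equiv.swap_apply_of_ne_of_ne (hB r 1) (hB r 3),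
        Equiv.swap_apply_of_ne_of_ne (hB r 0) (hB r 2)]
    unfold tri
    congr 1
    refine Fintype.sum_equiv (Equiv.mulRight τ) _ _ fun s => ?_
    simp only [Equiv.coe_mulRight, Equiv.Perm.mul_apply, t0, t1, t2, t3, th, sg,
      Equiv.Perm.sign_mul, hsg, mul_one]
    ring
  · unfold tri
    rw [← mul_add, ← Finset.sum_add_distrib]
    congr 1
    refine Finset.sum_congr rfl fun s _ => ?_
    ring
  · unfold tri
    rw [← mul_add, ← Finset.sum_add_distrib]
    congr 1
    refine Finset.sum_congr rfl fun s _ => ?_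
    ring
-- END tsy

-- BEGIN ips
private theorem ips_sum {q : ℕ} (f : Fin (q + 5) → ℝ) (hf : ∀ r, f (hd r) = 0) :
    ∑ a, f a = f (tl 0) + f (tl 1) + f (tl 2) + f (tl 3) := by
  have h1 : ∑ a : Fin (q + 1 + 4), f a =
      ∑ i : Fin (q + 1), f (Fin.castAdd 4 i) + ∑ i : Fin 4, f (Fin.natAdd (q + 1) i) :=
    Fin.sum_univ_add (a := q + 1) (b := 4) (fun a => f a)
  have h2 : ∑ i : Fin (q + 1), f (Fin.castAdd 4 i) = 0 :=
    Finset.sum_eq_zero fun i _ => hf i
  have h3 : ∑ i : Fin 4, f (Fin.natAdd (q + 1) i) = ∑ i : Fin 4, f (tl i) :=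
    Finset.sum_congr rfl fun i _ => rfl
  rw [h2, h3, zero_add, Fin.sum_univ_four] at h1
  exact h1

/-- Split the sums over `a` and `b` in `ip` into the `hd` and the `tl` indices (row idx; `Fin.sum_univ_add` with `q + 5 = q + 1 + 4`), use that `X` lives on the `tl` indices. -/
theorem ip_P {q : ℕ} (X Y : Fin (q + 5) → Fin (q + 5) → ℝ) (hX : Asym X) (hY : Asym Y)
    (hX0 : ∀ r b, X (hd r) b = 0) :
    ip X Y = X (tl 0) (tl 1) * Y (tl 0) (tl 1) + X (tl 0) (tl 2) * Y (tl 0) (tl 2) +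
      X (tl 0) (tl 3) * Y (tl 0) (tl 3) + X (tl 1) (tl 2) * Y (tl 1) (tl 2) +
      X (tl 1) (tl 3) * Y (tl 1) (tl 3) + X (tl 2) (tl 3) * Y (tl 2) (tl 3) := by
  have hX1 : ∀ i r, X (tl i) (hd r) = 0 := fun i r => by rw [hX (hd r) (tl i), hX0, neg_zero]
  have hd0 : ∀ a, X a a = 0 := fun a => by have := hX a a; linarith
  have h1 : ∀ i, ∑ b, X (tl i) b * Y (tl i) b = X (tl i) (tl 0) * Y (tl i) (tl 0) +
      X (tl i) (tl 1) * Y (tl i) (tl 1) + X (tl i) (tl 2) * Y (tl i) (tl 2) +
      X (tl i) (tl 3) * Y (tl i) (tl 3) := fun i =>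
    ips_sum (fun b => X (tl i) b * Y (tl i) b) fun r => by
      rw [hX1, zero_mul]
  have h2 : ∑ a, ∑ b, X a b * Y a b = (∑ b, X (tl 0) b * Y (tl 0) b) +
      (∑ b, X (tl 1) b * Y (tl 1) b) + (∑ b, X (tl 2) b * Y (tl 2) b) +
      ∑ b, X (tl 3) b * Y (tl 3) b :=
    ips_sum (fun a => ∑ b, X a b * Y a b) fun r =>
      Finset.sum_eq_zero fun b _ => by rw [hX0, zero_mul]
  unfold ip
  rw [h2, h1, h1, h1, h1, hd0, hd0, hd0, hd0, hX (tl 0) (tl 1), hX (tl 0) (tl 2), hX (tl 0) (tl 3),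
    hX (tl 1) (tl 2), hX (tl 1) (tl 3), hX (tl 2) (tl 3), hY (tl 0) (tl 1), hY (tl 0) (tl 2),
    hY (tl 0) (tl 3), hY (tl 1) (tl 2), hY (tl 1) (tl 3), hY (tl 2) (tl 3)]
  ring
-- END ips

-- BEGIN vna
/-- Rows ips, tvn and the three equations of `IsASDForm` (`X (tl 1) (tl 3) = X (tl 0) (tl 2)`). -/
theorem vN_asd {q : ℕ} (X Y : Fin (q + 5) → Fin (q + 5) → ℝ) (hX : IsASDForm X)
    (hY : Asym Y) : ip X Y + tri vN X Y = 0 := by
  obtain ⟨hA, h0, h23, h31, h12⟩ := hX
  have h13 : X (tl 1) (tl 3) = X (tl 0) (tl 2) := by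
    have h1 := hA (tl 1) (tl 3)
    linarith
  rw [ip_P X Y hA hY h0, tri_vN X Y hA hY]
  unfold six
  rw [h23, h13, h12]
  ring
-- END vna

-- BEGIN wdm
private theorem wdm_inj {q : ℕ} : Function.Injective (md : Fin (q + 3) → Fin (q + 5)) := by
  intro a b h
  have h1 : ((md a : Fin (q + 5)) : ℕ) = (md b : Fin (q + 5)) := congrArg Fin.val h
  exact Fin.ext h1

private theorem wdm_ne {q : ℕ} (r : Fin (q + 3)) :
    (md r : Fin (q + 5)) ≠ tl 2 ∧ (md r : Fin (q + 5)) ≠ tl 3 := by
  constructor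
  · intro h
    have h1 : (r : ℕ) = q + 1 + 2 := congrArg Fin.val h
    have h2 := r.2
    omega
  · intro h
    have h1 : (r : ℕ) = q + 1 + 3 := congrArg Fin.val h
    have h2 := r.2
    omega

private theorem wdm_cases {q : ℕ} (k : Fin (q + 5)) (h2 : k ≠ tl 2) (h3 : k ≠ tl 3) :
    ∃ r : Fin (q + 3), k = md r := by
  have h := k.2
  have h2' : (k : ℕ) ≠ q + 1 + 2 := fun h => h2 (Fin.ext h)
  have h3' : (k : ℕ) ≠ q + 1 + 3 := fun h => h3 (Fin.ext h)
  exact ⟨⟨k, by omega⟩, rfl⟩

private theorem wdm_restr {q : ℕ} (u : Equiv.Perm (Fin (q + 5))) (h2 : u (tl 2) = tl 2)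
    (h3 : u (tl 3) = tl 3) : ∃ t : Equiv.Perm (Fin (q + 3)), ∀ r, u (md r) = md (t r) := by
  have h : ∀ r : Fin (q + 3), ∃ r', u (md r) = md r' := by
    intro r
    apply wdm_cases
    · intro h
      exact (wdm_ne r).1 (u.injective (h.trans h2.symm))
    · intro h
      exact (wdm_ne r).2 (u.injective (h.trans h3.symm))
  choose f hf using h
  have hinj : Function.Injective f := by
    intro a b hab
    apply wdm_inj
    apply u.injective
    rw [hf a, hf b, hab]
  exact ⟨Equiv.ofBijective f (Finite.injective_iff_bijective.1 hinj), fun r => hf r⟩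

/-- `t ↦ s * ext t` (row ext of `Oad.Alg`, `exists_ext`: `(s * ext t) ∘ md = s ∘ md ∘ t`, same values at `tl 2`, `tl 3`, sign `sg s * sg t`) is a bijection of the permutations `t` of `Fin (q + 3)` onto the `s'` with `s' (tl 2) = s (tl 2)` and `s' (tl 3) = s (tl 3)` (injective, and both sets have `(q + 3)!` elements, or restrict `s⁻¹ * s'` to the first indices); `md (em r) = hd r`, `md (en 0) = tl 0`, `md (en 1) = tl 1`. -/
theorem wd_sum {q : ℕ} (O : (Fin (q + 1) → Fin (q + 5)) → ℝ)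
    (X : Fin (q + 5) → Fin (q + 5) → ℝ) (s : Equiv.Perm (Fin (q + 5))) :
    wd O X (fun r => s (md r)) = (1 / (2 * (Nat.factorial (q + 1) : ℝ))) *
      ∑ s' : Equiv.Perm (Fin (q + 5)), (if s' (tl 2) = s (tl 2) ∧ s' (tl 3) = s (tl 3) then
        sg s * sg s' * (O (fun r => s' (hd r)) * X (s' (tl 0)) (s' (tl 1))) else 0) := by
  unfold wd
  rw [smul_eq_mul]
  congr 1
  rw [← Finset.sum_filter]
  have hss : sg s * sg s = 1 := by
    unfold sg
    rw [← Int.cast_mul, ← Units.val_mul, Int.units_mul_self]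
    simp
  have hsgm : ∀ τ : Equiv.Perm (Fin (q + 5)), sg (s * τ) = sg s * sg τ := by
    intro τ
    unfold sg
    rw [Equiv.Perm.sign_mul]
    push_cast
    ring
  choose ext he using (exists_ext (q := q))
  refine Finset.sum_bij (fun t _ => s * ext t) ?_ ?_ ?_ ?_
  · intro t _
    rw [Finset.mem_filter]
    refine ⟨Finset.mem_univ _, ?_, ?_⟩
    · rw [Equiv.Perm.mul_apply, (he t).2.1]
    · rw [Equiv.Perm.mul_apply, (he t).2.2.1]
  · intro t _ t' _ htt
    have h1 : ext t = ext t' := mul_left_cancel htt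
    apply Equiv.ext
    intro r
    apply wdm_inj
    rw [← (he t).1 r, ← (he t').1 r, h1]
  · intro s' hs'
    rw [Finset.mem_filter] at hs'
    obtain ⟨-, h2, h3⟩ := hs'
    have h2' : (s⁻¹ * s') (tl 2) = tl 2 := by
      rw [Equiv.Perm.mul_apply, h2, Equiv.Perm.inv_eq_iff_eq]
    have h3' : (s⁻¹ * s') (tl 3) = tl 3 := by
      rw [Equiv.Perm.mul_apply, h3, Equiv.Perm.inv_eq_iff_eq]
    obtain ⟨t, ht⟩ := wdm_restr (s⁻¹ * s') h2' h3'
    refine ⟨t, Finset.mem_univ _, ?_⟩
    have h4 : ext t = s⁻¹ * s' := by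
      apply Equiv.ext
      intro k
      by_cases hk2 : k = tl 2
      · rw [hk2, (he t).2.1, h2']
      · by_cases hk3 : k = tl 3
        · rw [hk3, (he t).2.2.1, h3']
        · obtain ⟨r, rfl⟩ := wdm_cases k hk2 hk3
          rw [(he t).1 r, ht r]
    show s * ext t = s'
    rw [h4, mul_inv_cancel_left]
  · intro t _
    have hO : (fun r : Fin (q + 1) => (s * ext t) (hd r)) = fun r => s (md (t (em r))) := by
      funext r
      have h1 : (hd r : Fin (q + 5)) = md (em r) := rfl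
      rw [Equiv.Perm.mul_apply, h1, (he t).1]
    have h0 : (s * ext t) (tl 0) = s (md (t (en 0))) := by
      have h1 : (tl 0 : Fin (q + 5)) = md (en 0) := rfl
      rw [Equiv.Perm.mul_apply, h1, (he t).1]
    have h1 : (s * ext t) (tl 1) = s (md (t (en 1))) := by
      have h1 : (tl 1 : Fin (q + 5)) = md (en 1) := rfl
      rw [Equiv.Perm.mul_apply, h1, (he t).1]
    rw [hO, h0, h1, hsgm, (he t).2.2.2, smul_eq_mul]
    have h5 : sg s * (sg s * sg t) = sg t := by
      rw [← mul_assoc, hss, one_mul]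
    rw [h5]
    ring
-- END wdm

-- BEGIN du1
private theorem du1_sq {k : ℕ} (s : Equiv.Perm (Fin k)) : sg s * sg s = 1 := by
  rcases Int.units_eq_one_or (Equiv.Perm.sign s) with h | h <;> simp [sg, h]

private theorem du1_A {q : ℕ} (X Y : Fin (q + 5) → Fin (q + 5) → ℝ) (hX : Asym X) :
    ∑ s : Equiv.Perm (Fin (q + 5)), X (s (tl 2)) (s (tl 3)) * Y (s (tl 2)) (s (tl 3)) =
      (Nat.factorial (q + 3) : ℝ) * (2 * ip X Y) := by
  have h0 : ∀ f, X f f = 0 := fun f => by
    have h := hX f f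
    linarith
  have h1 : ∀ s : Equiv.Perm (Fin (q + 5)), X (s (tl 2)) (s (tl 3)) * Y (s (tl 2)) (s (tl 3)) =
      ∑ f, (if s (tl 3) = f then X (s (tl 2)) f * Y (s (tl 2)) f else 0) := by
    intro s
    rw [Finset.sum_ite_eq, if_pos (Finset.mem_univ _)]
  rw [Finset.sum_congr rfl fun s _ => h1 s, Finset.sum_comm]
  have h2 : ∀ f : Fin (q + 5), ∑ s : Equiv.Perm (Fin (q + 5)),
      (if s (tl 3) = f then X (s (tl 2)) f * Y (s (tl 2)) f else 0) =
      (Nat.factorial (q + 3) : ℝ) * ∑ a, X a f * Y a f := by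
    intro f
    exact count_last (V := ℝ) (fun a => X a f * Y a f) f (by rw [h0, zero_mul])
  rw [Finset.sum_congr rfl fun f _ => h2 f, ← Finset.mul_sum, Finset.sum_comm, ip]
  ring

private theorem du1_N {q : ℕ} (s' : Equiv.Perm (Fin (q + 5))) :
    ∑ s : Equiv.Perm (Fin (q + 5)), (if s' (tl 2) = s (tl 2) ∧ s' (tl 3) = s (tl 3) then (1 : ℝ) else 0) =
      (Nat.factorial (q + 3) : ℝ) := by
  have hne : s' (tl 3) ≠ s' (tl 2) := fun h => by
    have h1 := congrArg Fin.val (s'.injective h)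
    simp [tl] at h1
  have h1 := count_last (V := ℝ) (fun a => if a = s' (tl 2) then (1 : ℝ) else 0) (s' (tl 3))
    (if_neg hne)
  rw [Finset.sum_ite_eq', if_pos (Finset.mem_univ _), smul_eq_mul, mul_one] at h1
  rw [← h1]
  refine Finset.sum_congr rfl fun s _ => ?_
  by_cases h3 : s (tl 3) = s' (tl 3)
  · by_cases h2 : s (tl 2) = s' (tl 2)
    · rw [if_pos ⟨h2.symm, h3.symm⟩, if_pos h3, if_pos h2]
    · rw [if_neg (fun h => h2 h.1.symm), if_pos h3, if_neg h2]
  · rw [if_neg (fun h => h3 h.2.symm), if_neg h3]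

private theorem du1_B {q : ℕ} (O : (Fin (q + 1) → Fin (q + 5)) → ℝ)
    (X Y : Fin (q + 5) → Fin (q + 5) → ℝ) :
    ∑ s : Equiv.Perm (Fin (q + 5)), sg s * Y (s (tl 2)) (s (tl 3)) * wd O X (fun r => s (md r)) =
      (Nat.factorial (q + 3) : ℝ) * (2 * tri O X Y) := by
  have h1 : ∀ s : Equiv.Perm (Fin (q + 5)),
      sg s * Y (s (tl 2)) (s (tl 3)) * wd O X (fun r => s (md r)) =
      ∑ s' : Equiv.Perm (Fin (q + 5)), (1 / (2 * (Nat.factorial (q + 1) : ℝ))) *
        (sg s' * (O (fun r => s' (hd r)) * (X (s' (tl 0)) (s' (tl 1)) * Y (s' (tl 2)) (s' (tl 3))))) *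
        (if s' (tl 2) = s (tl 2) ∧ s' (tl 3) = s (tl 3) then (1 : ℝ) else 0) := by
    intro s
    rw [wd_sum, ← mul_assoc, Finset.mul_sum]
    refine Finset.sum_congr rfl fun s' _ => ?_
    by_cases h : s' (tl 2) = s (tl 2) ∧ s' (tl 3) = s (tl 3)
    · rw [if_pos h, if_pos h, h.1, h.2]
      linear_combination (Y (s (tl 2)) (s (tl 3)) * (1 / (2 * (Nat.factorial (q + 1) : ℝ))) *
        (sg s' * (O (fun r => s' (hd r)) * X (s' (tl 0)) (s' (tl 1))))) * du1_sq s
    · rw [if_neg h, if_neg h, mul_zero, mul_zero]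
  rw [Finset.sum_congr rfl fun s _ => h1 s, Finset.sum_comm]
  have h2 : ∀ s' : Equiv.Perm (Fin (q + 5)), ∑ s : Equiv.Perm (Fin (q + 5)),
      (1 / (2 * (Nat.factorial (q + 1) : ℝ))) *
        (sg s' * (O (fun r => s' (hd r)) * (X (s' (tl 0)) (s' (tl 1)) * Y (s' (tl 2)) (s' (tl 3))))) *
        (if s' (tl 2) = s (tl 2) ∧ s' (tl 3) = s (tl 3) then (1 : ℝ) else 0) =
      (1 / (2 * (Nat.factorial (q + 1) : ℝ))) * (Nat.factorial (q + 3) : ℝ) *
        (sg s' * (O (fun r => s' (hd r)) * (X (s' (tl 0)) (s' (tl 1)) * Y (s' (tl 2)) (s' (tl 3))))) := by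
    intro s'
    rw [← Finset.mul_sum, du1_N s']
    ring
  rw [Finset.sum_congr rfl fun s' _ => h2 s', ← Finset.mul_sum, tri]
  have hf : (Nat.factorial (q + 1) : ℝ) ≠ 0 := Nat.cast_ne_zero.2 (Nat.factorial_ne_zero _)
  field_simp
  ring

/-- Multiply the equation for `s` by `sg s * Y (s (tl 2)) (s (tl 3))` and sum over `s`. First sum: `∑ s, X (s (tl 2)) (s (tl 3)) * Y (s (tl 2)) (s (tl 3)) = (q + 3)! * ∑ a, ∑ b, X a b * Y a b` (`count_last` of `Oad.Alg` for each last value). Second sum: row wdm; every `s'` occurs for the `(q + 3)!` permutations `s` with the same two last values (`count_last` again), `sg s * sg s = 1`; it is `(q + 3)! * 2 * tri O X Y`. -/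
theorem dual_of_eqn {q : ℕ} (O : (Fin (q + 1) → Fin (q + 5)) → ℝ)
    (X Y : Fin (q + 5) → Fin (q + 5) → ℝ) (hX : Asym X) (hY : Asym Y) (h : Eqn O X) :
    ip X Y + tri O X Y = 0 := by
  have hf : (Nat.factorial (q + 3) : ℝ) ≠ 0 := Nat.cast_ne_zero.2 (Nat.factorial_ne_zero _)
  have h1 : ∑ s : Equiv.Perm (Fin (q + 5)), (X (s (tl 2)) (s (tl 3)) * Y (s (tl 2)) (s (tl 3)) +
      sg s * Y (s (tl 2)) (s (tl 3)) * wd O X (fun r => s (md r))) = 0 := by
    refine Finset.sum_eq_zero fun s _ => ?_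
    have h2 := h s
    rw [smul_eq_mul] at h2
    linear_combination (sg s * Y (s (tl 2)) (s (tl 3))) * h2 -
      (X (s (tl 2)) (s (tl 3)) * Y (s (tl 2)) (s (tl 3))) * du1_sq s
  rw [Finset.sum_add_distrib, du1_A X Y hX, du1_B O X Y, ← mul_add, ← mul_add] at h1
  rcases mul_eq_zero.1 h1 with h2 | h2
  · exact absurd h2 hf
  · linarith
-- END du1

-- BEGIN du2
private theorem du2_ne {q : ℕ} (r : Fin (q + 1)) (j : Fin 4) : (hd r : Fin (q + 5)) ≠ tl j := by
  intro h
  have h1 := congrArg Fin.val h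
  simp only [hd, tl] at h1
  omega

private theorem du2_tl {q : ℕ} {i j : Fin 4} (h : i ≠ j) : (tl i : Fin (q + 5)) ≠ tl j := by
  intro h1
  have h2 := congrArg Fin.val h1
  simp only [tl] at h2
  exact h (Fin.ext (by omega))

private theorem du2_swap {q : ℕ} (O : (Fin (q + 1) → Fin (q + 5)) → ℝ)
    (X : Fin (q + 5) → Fin (q + 5) → ℝ) (p r : Fin (q + 5)) :
    (∑ s' : Equiv.Perm (Fin (q + 5)), (if s' (tl 2) = r ∧ s' (tl 3) = p then
        sg s' * (O (fun r => s' (hd r)) * X (s' (tl 0)) (s' (tl 1))) else 0)) =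
    -∑ s' : Equiv.Perm (Fin (q + 5)), (if s' (tl 2) = p ∧ s' (tl 3) = r then
        sg s' * (O (fun r => s' (hd r)) * X (s' (tl 0)) (s' (tl 1))) else 0) := by
  rw [← Finset.sum_neg_distrib,
    ← Equiv.sum_comp (Equiv.mulRight (Equiv.swap (tl 2 : Fin (q + 5)) (tl 3)))]
  refine Finset.sum_congr rfl fun s _ => ?_
  have h2 : (s * Equiv.swap (tl 2 : Fin (q + 5)) (tl 3)) (tl 2) = s (tl 3) := by
    rw [Equiv.Perm.mul_apply, Equiv.swap_apply_left]
  have h3 : (s * Equiv.swap (tl 2 : Fin (q + 5)) (tl 3)) (tl 3) = s (tl 2) := by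
    rw [Equiv.Perm.mul_apply, Equiv.swap_apply_right]
  have h0 : (s * Equiv.swap (tl 2 : Fin (q + 5)) (tl 3)) (tl 0) = s (tl 0) := by
    rw [Equiv.Perm.mul_apply, Equiv.swap_apply_of_ne_of_ne (du2_tl (by decide)) (du2_tl (by decide))]
  have h1 : (s * Equiv.swap (tl 2 : Fin (q + 5)) (tl 3)) (tl 1) = s (tl 1) := by
    rw [Equiv.Perm.mul_apply, Equiv.swap_apply_of_ne_of_ne (du2_tl (by decide)) (du2_tl (by decide))]
  have h4 : (fun r => (s * Equiv.swap (tl 2 : Fin (q + 5)) (tl 3)) (hd r)) = fun r => s (hd r) := by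
    funext k
    rw [Equiv.Perm.mul_apply, Equiv.swap_apply_of_ne_of_ne (du2_ne k 2) (du2_ne k 3)]
  have h5 : sg (s * Equiv.swap (tl 2 : Fin (q + 5)) (tl 3)) = -sg s := by
    unfold sg
    rw [Equiv.Perm.sign_mul, Equiv.Perm.sign_swap (du2_tl (by decide))]
    push_cast
    ring
  rw [Equiv.coe_mulRight, h2, h3, h0, h1, h4, h5]
  by_cases h : s (tl 3) = r ∧ s (tl 2) = p
  · rw [if_pos h, if_pos ⟨h.2, h.1⟩]
    ring
  · rw [if_neg h, if_neg fun h' => h ⟨h'.2, h'.1⟩, neg_zero]

/-- For `s` take `Y a b = (if a = s (tl 2) ∧ b = s (tl 3) then 1 else 0) - (if a = s (tl 3) ∧ b = s (tl 2) then 1 else 0)`: `ip X Y = X (s (tl 2)) (s (tl 3))`, and by `s' ↦ s' * swap (tl 2) (tl 3)` (odd) both parts of `Y` contribute the same to `tri O X Y`, which is `sg s * wd O X (s ∘ md)` by row wdm. Multiply by `sg s`. -/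
theorem eqn_of_dual {q : ℕ} (O : (Fin (q + 1) → Fin (q + 5)) → ℝ)
    (X : Fin (q + 5) → Fin (q + 5) → ℝ) (hX : Asym X)
    (h : ∀ Y, Asym Y → ip X Y + tri O X Y = 0) : Eqn O X := by
  intro s
  set p := s (tl 2) with hp
  set r := s (tl 3) with hr
  set A := ∑ s' : Equiv.Perm (Fin (q + 5)), (if s' (tl 2) = p ∧ s' (tl 3) = r then
        sg s' * (O (fun r => s' (hd r)) * X (s' (tl 0)) (s' (tl 1))) else 0) with hA
  have hY : Asym fun a b => (if a = p ∧ b = r then (1 : ℝ) else 0) -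
      (if a = r ∧ b = p then 1 else 0) := by
    intro a b
    show (if b = p ∧ a = r then (1 : ℝ) else 0) - (if b = r ∧ a = p then 1 else 0) =
      -((if a = p ∧ b = r then (1 : ℝ) else 0) - (if a = r ∧ b = p then 1 else 0))
    rw [if_congr (and_comm : b = p ∧ a = r ↔ a = r ∧ b = p) rfl rfl,
      if_congr (and_comm : b = r ∧ a = p ↔ a = p ∧ b = r) rfl rfl]
    ring
  have h1 := h _ hY
  have h2 : ip X (fun a b => (if a = p ∧ b = r then (1 : ℝ) else 0) -
      (if a = r ∧ b = p then 1 else 0)) = X p r := by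
    unfold ip
    have e1 : ∀ a b : Fin (q + 5), X a b * ((if a = p ∧ b = r then (1 : ℝ) else 0) -
      (if a = r ∧ b = p then 1 else 0)) =
        (if a = p then (if b = r then X a b else 0) else 0) -
        (if a = r then (if b = p then X a b else 0) else 0) := by
      intro a b
      simp only [mul_sub, mul_ite, mul_one, mul_zero, ite_and]
    have e2 : ∑ a, ∑ b, X a b * ((if a = p ∧ b = r then (1 : ℝ) else 0) -
      (if a = r ∧ b = p then 1 else 0)) = X p r - X r p := by
      rw [Finset.sum_congr rfl fun a _ => Finset.sum_congr rfl fun b _ => e1 a b]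
      simp only [Finset.sum_sub_distrib]
      congr 1
      · rw [Finset.sum_eq_single p]
        · simp
        · intro b _ hb
          simp [hb]
        · simp
      · rw [Finset.sum_eq_single r]
        · simp
        · intro b _ hb
          simp [hb]
        · simp
    rw [e2, hX p r]
    ring
  have h3 : tri O X (fun a b => (if a = p ∧ b = r then (1 : ℝ) else 0) -
      (if a = r ∧ b = p then 1 else 0)) = (1 / (2 * (Nat.factorial (q + 1) : ℝ))) * A := by
    unfold tri
    have e1 : ∑ s' : Equiv.Perm (Fin (q + 5)), sg s' * (O (fun r => s' (hd r)) *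
        (X (s' (tl 0)) (s' (tl 1)) * ((if s' (tl 2) = p ∧ s' (tl 3) = r then (1 : ℝ) else 0) -
          (if s' (tl 2) = r ∧ s' (tl 3) = p then 1 else 0)))) = A - (-A) := by
      rw [hA, ← du2_swap, ← Finset.sum_sub_distrib]
      refine Finset.sum_congr rfl fun s' _ => ?_
      by_cases c1 : s' (tl 2) = p ∧ s' (tl 3) = r
      · by_cases c2 : s' (tl 2) = r ∧ s' (tl 3) = p
        · rw [if_pos c1, if_pos c2, if_pos c1, if_pos c2]; ring
        · rw [if_pos c1, if_neg c2, if_pos c1, if_neg c2]; ring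
      · by_cases c2 : s' (tl 2) = r ∧ s' (tl 3) = p
        · rw [if_neg c1, if_pos c2, if_neg c1, if_pos c2]; ring
        · rw [if_neg c1, if_neg c2, if_neg c1, if_neg c2]; ring
    rw [e1]
    have hf : (Nat.factorial (q + 1) : ℝ) ≠ 0 := by
      exact_mod_cast Nat.factorial_ne_zero _
    field_simp
    ring
  have h4 : wd O X (fun r => s (md r)) = sg s * ((1 / (2 * (Nat.factorial (q + 1) : ℝ))) * A) := by
    rw [wd_sum, hA]
    have e1 : ∑ s' : Equiv.Perm (Fin (q + 5)), (if s' (tl 2) = s (tl 2) ∧ s' (tl 3) = s (tl 3) then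
        sg s * sg s' * (O (fun r => s' (hd r)) * X (s' (tl 0)) (s' (tl 1))) else 0) =
        sg s * ∑ s' : Equiv.Perm (Fin (q + 5)), (if s' (tl 2) = p ∧ s' (tl 3) = r then
        sg s' * (O (fun r => s' (hd r)) * X (s' (tl 0)) (s' (tl 1))) else 0) := by
      rw [Finset.mul_sum]
      refine Finset.sum_congr rfl fun s' _ => ?_
      rw [← hp, ← hr, mul_ite, mul_zero, mul_assoc]
    rw [e1]
    ring
  rw [h2, h3] at h1
  rw [h4, smul_eq_mul, ← mul_add, h1, mul_zero]
-- END du2

-- BEGIN alm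
private theorem alm_comm {q : ℕ} (X Y : Fin (q + 5) → Fin (q + 5) → ℝ) : ip X Y = ip Y X := by
  unfold ip
  congr 1
  exact Finset.sum_congr rfl fun a _ => Finset.sum_congr rfl fun b _ => mul_comm _ _

private theorem alm_add {q : ℕ} (X Y Z : Fin (q + 5) → Fin (q + 5) → ℝ) :
    ip (fun a b => X a b + Y a b) Z = ip X Z + ip Y Z := by
  unfold ip
  rw [← mul_add, ← Finset.sum_add_distrib]
  congr 1
  refine Finset.sum_congr rfl fun a _ => ?_
  rw [← Finset.sum_add_distrib]
  exact Finset.sum_congr rfl fun b _ => add_mul _ _ _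

private noncomputable def almT (m1 m2 m3 : ℝ) (i j : ℕ) : ℝ :=
  (if i = 0 ∧ j = 1 then m1 else 0) - (if i = 1 ∧ j = 0 then m1 else 0)
    + (if i = 0 ∧ j = 2 then m2 else 0) - (if i = 2 ∧ j = 0 then m2 else 0)
    + (if i = 0 ∧ j = 3 then m3 else 0) - (if i = 3 ∧ j = 0 then m3 else 0)
    - (if i = 1 ∧ j = 2 then m3 else 0) + (if i = 2 ∧ j = 1 then m3 else 0)
    + (if i = 1 ∧ j = 3 then m2 else 0) - (if i = 3 ∧ j = 1 then m2 else 0)
    - (if i = 2 ∧ j = 3 then m1 else 0) + (if i = 3 ∧ j = 2 then m1 else 0)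

private theorem alm_exists {q : ℕ} (m1 m2 m3 : ℝ) :
    ∃ Z : Fin (q + 5) → Fin (q + 5) → ℝ, IsASDForm Z ∧ Z (tl 0) (tl 1) = m1 ∧
      Z (tl 0) (tl 2) = m2 ∧ Z (tl 0) (tl 3) = m3 := by
  refine ⟨fun a b => if q + 1 ≤ a.val ∧ q + 1 ≤ b.val then
    almT m1 m2 m3 (a.val - (q + 1)) (b.val - (q + 1)) else 0, ⟨?_, ?_, ?_, ?_, ?_⟩, ?_, ?_, ?_⟩
  · intro a b
    beta_reduce
    by_cases h : q + 1 ≤ a.val ∧ q + 1 ≤ b.val
    · rw [if_pos h, if_pos ⟨h.2, h.1⟩]
      unfold almT
      simp only [and_comm (b := a.val - (q + 1) = _)]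
      ring
    · rw [if_neg h, if_neg (fun hh => h ⟨hh.2, hh.1⟩), neg_zero]
  · intro r b
    beta_reduce
    rw [if_neg]
    rintro ⟨h, -⟩
    have h1 := r.2
    change q + 1 ≤ r.val at h
    omega
  all_goals
    simp [tl, almT]
/-- Let `Xm` be the anti-self-dual part of `X` and `W = X - Xm`. By `h`, `tri O X Xm = -ip X Xm = -ip Xm Xm = tri O Xm Xm`, so `tri O Xm W = 0` and `ip W W + tri O W W = ip X W + tri O X W = 0`; hence `W = 0` by `hN`. -/
theorem sol_asd {q : ℕ} (O : (Fin (q + 1) → Fin (q + 5)) → ℝ) (hO : Alt O) (h1 : O hd = 1)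
    (hN : NondegO O) (X : Fin (q + 5) → Fin (q + 5) → ℝ) (hX : Asym X)
    (h : ∀ Y, Asym Y → ip X Y + tri O X Y = 0) : IsASDForm X := by
  obtain ⟨Z, hZ, e1, e2, e3⟩ := alm_exists (q := q) ((X (tl 0) (tl 1) - X (tl 2) (tl 3)) / 2)
    ((X (tl 0) (tl 2) + X (tl 1) (tl 3)) / 2) ((X (tl 0) (tl 3) - X (tl 1) (tl 2)) / 2)
  have key : ∀ Y : Fin (q + 5) → Fin (q + 5) → ℝ, IsASDForm Y → Y (tl 1) (tl 3) = Y (tl 0) (tl 2) := by
    intro Y hY
    have h2 := hY.1 (tl 1) (tl 3)
    have h3 := hY.2.2.2.1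
    linarith
  obtain ⟨hA, h0, h23, h31, h12⟩ := id hZ
  have h13 := key Z hZ
  set W : Fin (q + 5) → Fin (q + 5) → ℝ := fun a b => X a b - Z a b with hW
  have hXW : X = fun a b => W a b + Z a b := by
    funext a b
    rw [hW]
    ring
  have hWA : Asym W := by
    intro a b
    have h2 := hX a b
    have h3 := hA a b
    rw [hW]
    change X b a - Z b a = -(X a b - Z a b)
    rw [h2, h3]
    ring
  have hpW : ∀ Y, IsASDForm Y → ip W Y = 0 := by
    intro Y hY
    have h13' := key Y hY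
    obtain ⟨hA', h0', h23', h31', h12'⟩ := hY
    rw [alm_comm, ip_P Y W hA' hWA h0']
    rw [hW]
    change Y (tl 0) (tl 1) * (X (tl 0) (tl 1) - Z (tl 0) (tl 1)) +
      Y (tl 0) (tl 2) * (X (tl 0) (tl 2) - Z (tl 0) (tl 2)) +
      Y (tl 0) (tl 3) * (X (tl 0) (tl 3) - Z (tl 0) (tl 3)) +
      Y (tl 1) (tl 2) * (X (tl 1) (tl 2) - Z (tl 1) (tl 2)) +
      Y (tl 1) (tl 3) * (X (tl 1) (tl 3) - Z (tl 1) (tl 3)) +
      Y (tl 2) (tl 3) * (X (tl 2) (tl 3) - Z (tl 2) (tl 3)) = 0
    rw [h23', h13', h12', h23, h13, h12, e1, e2, e3]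
    ring
  have hZW : ip Z W = 0 := by rw [alm_comm]; exact hpW Z hZ
  have hXW2 : ip X W = ip W W := by
    have h2 : ip X W = ip (fun a b => W a b + Z a b) W := by rw [← hXW]
    rw [h2, alm_add, hZW, add_zero]
  have hXZ : ip X Z = ip Z Z := by
    have h2 : ip X Z = ip (fun a b => W a b + Z a b) Z := by rw [← hXW]
    rw [h2, alm_add, hpW Z hZ, zero_add]
  have hZZ : tri O Z Z = -ip Z Z := by
    rw [tri_PP O hO Z Z hA hA h0 h0, ip_P Z Z hA hA h0, h1]
    unfold six
    rw [h23, h13, h12]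
    ring
  have hTX : tri O X Z = tri O Z Z := by
    have h2 := h Z hA
    rw [hXZ] at h2
    rw [hZZ]
    linarith
  have hTW : tri O Z W = 0 := by
    have h2 : tri O Z X = tri O Z W + tri O Z Z := by
      have h3 : tri O Z X = tri O Z (fun a b => W a b + Z a b) := by rw [← hXW]
      rw [h3]
      exact (tri_symm_add O Z W Z).2.1
    have h3 : tri O Z X = tri O X Z := (tri_symm_add O Z X X).1
    linarith
  have hTT : tri O X W = tri O W W := by
    have h3 : tri O X W = tri O (fun a b => W a b + Z a b) W := by rw [← hXW]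
    rw [h3, (tri_symm_add O W Z W).2.2, hTW, add_zero]
  have hW0 : W = 0 := by
    by_contra hne
    have h2 := hN W hWA hpW hne
    have h3 := h W hWA
    rw [hXW2, hTT] at h3
    linarith
  have hfin : X = Z := by
    rw [hXW, hW0]
    funext a b
    exact zero_add _
  rw [hfin]
  exact hZ
-- END alm

-- BEGIN mtr
private theorem mtr_wd {n q : ℕ} (L : Mat n →ₗ[ℝ] ℝ) (O : (Fin (q + 1) → Fin (q + 5)) → ℝ)
    (X : Fin (q + 5) → Fin (q + 5) → Mat n) (a : Fin (q + 3) → Fin (q + 5)) :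
    L (wd O X a) = wd O (fun i j => L (X i j)) a := by
  unfold wd
  rw [map_smul, map_sum]
  simp only [map_smul]

private noncomputable def mtr_re {n : ℕ} (i j : Fin n) : Mat n →ₗ[ℝ] ℝ where
  toFun M := (M i j).re
  map_add' M N := by simp
  map_smul' c M := by simp

private noncomputable def mtr_im {n : ℕ} (i j : Fin n) : Mat n →ₗ[ℝ] ℝ where
  toFun M := (M i j).im
  map_add' M N := by simp
  map_smul' c M := by simp

/-- For every entry `(i, j)` the real arrays `(X a b i j).re` and `(X a b i j).im` are antisymmetric and satisfy `Eqn O`; by `H` they satisfy `Eqn O'`; put the entries together. -/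
theorem mat_reduce {n q : ℕ} (O O' : (Fin (q + 1) → Fin (q + 5)) → ℝ)
    (X : Fin (q + 5) → Fin (q + 5) → Mat n) (hX : ∀ a b, X b a = -X a b)
    (h : ∀ s : Equiv.Perm (Fin (q + 5)), sg s • X (s (tl 2)) (s (tl 3)) +
      wd O X (fun r => s (md r)) = 0)
    (H : ∀ Y, Asym Y → Eqn O Y → Eqn O' Y) :
    ∀ s : Equiv.Perm (Fin (q + 5)), sg s • X (s (tl 2)) (s (tl 3)) +
      wd O' X (fun r => s (md r)) = 0 := by
  intro s
  have key : ∀ L : Mat n →ₗ[ℝ] ℝ,
      L (sg s • X (s (tl 2)) (s (tl 3)) + wd O' X (fun r => s (md r))) = 0 := by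
    intro L
    have hY : Asym (fun a b => L (X a b)) := by
      intro a b
      show L (X b a) = -L (X a b)
      rw [hX a b, map_neg]
    have hE : Eqn O (fun a b => L (X a b)) := by
      intro s'
      have h1 := congrArg L (h s')
      rw [map_add, map_smul, map_zero, mtr_wd] at h1
      exact h1
    have h3 := H _ hY hE s
    rw [map_add, map_smul, mtr_wd]
    exact h3
  ext i j
  refine Complex.ext ?_ ?_
  · exact key (mtr_re i j)
  · exact key (mtr_im i j)
-- END mtr

-- BEGIN cal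
/-- `cmp` is alternating (`ContinuousAlternatingMap.map_perm`). -/
theorem cmp_alt {q : ℕ} (e : Fin (q + 5) → E q → E q) (Ω : E q → Form q (q + 1)) (x : E q) :
    Alt (cmp e Ω x) := by
  intro b σ
  have h : Ω x ((fun r => e (b r) x) ∘ σ) = Equiv.Perm.sign σ • Ω x (fun r => e (b r) x) :=
    (Ω x).toAlternatingMap.map_perm (fun r => e (b r) x) σ
  unfold cmp
  rw [show (fun r => e (b (σ r)) x) = (fun r => e (b r) x) ∘ σ from rfl, h]
  unfold sg
  rw [Units.smul_def, zsmul_eq_mul]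
-- END cal

-- BEGIN co1
/-- `f(c, t) = Ω(.., c e_(hd r) + t e_(tl j), ..) = c + t * k` (multilinear, `k` the cousin) is at most `1` for `c ^ 2 + t ^ 2 ≤ 1` (`ComassLe` with unit vectors in the other places). With `c = (1 - ε^2) / (1 + ε^2)`, `t = 2 ε / (1 + ε^2)`: `ε k ≤ ε ^ 2` for all real `ε`, so `k = 0`. -/
theorem cousin_one {q : ℕ} (e : Fin (q + 5) → E q → E q) (Ω : E q → Form q (q + 1)) (x : E q)
    (hc : ComassLe e Ω x) (h1 : Calib e Ω x) (r : Fin (q + 1)) (j : Fin 4) :
    cmp e Ω x (Function.update hd r (tl j)) = 0 := by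
  classical
  have hne : (hd r : Fin (q + 5)) ≠ tl j := by
    intro h
    have h2 := congrArg Fin.val h
    simp only [hd, tl] at h2
    have := r.isLt
    omega
  have hk : cmp e Ω x (Function.update hd r (tl j)) =
      Ω x (Function.update (fun r => e (hd r) x) r (e (tl j) x)) := by
    unfold cmp
    refine congrArg (fun v => Ω x v) (funext fun r' => ?_)
    by_cases h : r' = r
    · subst h
      rw [Function.update_self, Function.update_self]
    · rw [Function.update_of_ne h, Function.update_of_ne h]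
  have hcal : Ω x (Function.update (fun r => e (hd r) x) r (e (hd r) x)) = 1 := by
    rw [Function.update_eq_self]
    exact h1
  have key : ∀ c t : ℝ, c ^ 2 + t ^ 2 ≤ 1 →
      c + t * cmp e Ω x (Function.update hd r (tl j)) ≤ 1 := by
    intro c t hct
    have h2 := hc (fun r' a => if r' = r then
        (if a = hd r then c else 0) + (if a = tl j then t else 0)
      else (if a = hd r' then 1 else 0)) (by
        intro r'
        by_cases h : r' = r
        · simp only [if_pos h]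
          have h3 : ∀ a : Fin (q + 5), ((if a = hd r then c else 0) +
              (if a = tl j then t else 0)) ^ 2 =
              (if a = hd r then c ^ 2 else 0) + (if a = tl j then t ^ 2 else 0) := by
            intro a
            by_cases ha : a = hd r
            · have hb : ¬ a = tl j := fun h' => hne (ha.symm.trans h')
              simp [if_pos ha, if_neg hb]
            · simp [if_neg ha]
          rw [Finset.sum_congr rfl (fun a _ => h3 a), Finset.sum_add_distrib,
            Finset.sum_ite_eq' Finset.univ (hd r) (fun _ => c ^ 2),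
            Finset.sum_ite_eq' Finset.univ (tl j) (fun _ => t ^ 2)]
          simpa using hct
        · simp only [if_neg h]
          have h3 : ∀ a : Fin (q + 5), (if a = hd r' then (1 : ℝ) else 0) ^ 2 =
              if a = hd r' then (1 : ℝ) else 0 := by
            intro a
            by_cases ha : a = hd r'
            · simp [if_pos ha]
            · simp [if_neg ha]
          rw [Finset.sum_congr rfl (fun a _ => h3 a),
            Finset.sum_ite_eq' Finset.univ (hd r') (fun _ => (1 : ℝ))]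
          simp)
    have h4 : (fun r' : Fin (q + 1) => ∑ a, (if r' = r then
        (if a = hd r then c else 0) + (if a = tl j then t else 0)
      else (if a = hd r' then (1 : ℝ) else 0)) • e a x) =
        Function.update (fun r => e (hd r) x) r (c • e (hd r) x + t • e (tl j) x) := by
      funext r'
      by_cases h : r' = r
      · subst h
        rw [Function.update_self]
        simp only [if_true, add_smul, Finset.sum_add_distrib, ite_smul, zero_smul]
        rw [Finset.sum_ite_eq' Finset.univ (hd r') (fun a => c • e a x),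
          Finset.sum_ite_eq' Finset.univ (tl j) (fun a => t • e a x)]
        simp
      · rw [Function.update_of_ne h]
        simp only [if_neg h, ite_smul, one_smul, zero_smul]
        rw [Finset.sum_ite_eq' Finset.univ (hd r') (fun a => e a x)]
        simp
    rw [h4, ContinuousAlternatingMap.map_update_add,
      ContinuousAlternatingMap.map_update_smul, ContinuousAlternatingMap.map_update_smul,
      hcal, ← hk] at h2
    simpa using h2
  set k := cmp e Ω x (Function.update hd r (tl j)) with hkdef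
  have h5 : ∀ ε : ℝ, ε * k ≤ ε ^ 2 := by
    intro ε
    have hp : (0 : ℝ) < 1 + ε ^ 2 := by positivity
    have h6 := key ((1 - ε ^ 2) / (1 + ε ^ 2)) (2 * ε / (1 + ε ^ 2)) (by
      have h7 : ((1 - ε ^ 2) / (1 + ε ^ 2)) ^ 2 + (2 * ε / (1 + ε ^ 2)) ^ 2 = 1 := by
        field_simp
        ring
      exact h7.le)
    rw [div_mul_eq_mul_div, ← add_div, div_le_one hp] at h6
    nlinarith
  have h8 := h5 (k / 2)
  nlinarith [sq_nonneg k]
-- END co1

-- BEGIN co2
/-- `cmp` is alternating (`ContinuousAlternatingMap.map_perm`). If `b r = tl j` and the other values of `b` are distinct `hd l`, let `l0` be the missing one and `σ` the permutation with `σ r = l0`, `b k = hd (σ k)` for `k ≠ r`; then `b = update hd l0 (tl j) ∘ σ`, row co1. -/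
theorem cmp_props {q : ℕ} (e : Fin (q + 5) → E q → E q) (Ω : E q → Form q (q + 1)) (x : E q)
    (hc : ComassLe e Ω x) (h1 : Calib e Ω x) : Alt (cmp e Ω x) ∧ Cousin (cmp e Ω x) := by
  classical
  have hA : Alt (cmp e Ω x) := by
    intro b σ
    have h := (Ω x).toAlternatingMap.map_perm (fun r => e (b r) x) σ
    have h2 : Ω x (fun r => e (b (σ r)) x) =
        (Equiv.Perm.sign σ : ℤˣ) • Ω x (fun r => e (b r) x) := h
    show Ω x (fun r => e (b (σ r)) x) = sg σ * Ω x (fun r => e (b r) x)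
    rw [h2, Units.smul_def, zsmul_eq_mul]
    rfl
  refine ⟨hA, fun b hb hr => ?_⟩
  obtain ⟨r, j, hrj, hk⟩ := hr
  obtain ⟨l, hl⟩ : ∃ l : {k : Fin (q + 1) // k ≠ r} → Fin (q + 1),
      ∀ k : {k : Fin (q + 1) // k ≠ r}, b k.1 = hd (l k) := by
    choose l hl using fun k : {k : Fin (q + 1) // k ≠ r} => hk k k.2
    exact ⟨l, hl⟩
  have hlinj : Function.Injective l := by
    intro k k' hkk
    apply Subtype.ext
    apply hb
    rw [hl k, hl k', hkk]
  have hns : ¬ Function.Surjective l := by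
    intro hs
    have h1 := Fintype.card_le_of_surjective l hs
    have h2 : Fintype.card {k : Fin (q + 1) // k ≠ r} < Fintype.card (Fin (q + 1)) :=
      Fintype.card_subtype_lt (x := r) (fun h => h rfl)
    omega
  obtain ⟨l0, hl0⟩ : ∃ l0, ∀ k, l k ≠ l0 := by
    by_contra hcon
    push Not at hcon
    exact hns hcon
  have hτ : Function.Injective (fun k : Fin (q + 1) => if h : k = r then l0 else l ⟨k, h⟩) := by
    intro k k' hkk
    by_cases h : k = r
    · by_cases h' : k' = r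
      · rw [h, h']
      · simp only [dif_pos h, dif_neg h'] at hkk
        exact absurd hkk.symm (hl0 _)
    · by_cases h' : k' = r
      · simp only [dif_neg h, dif_pos h'] at hkk
        exact absurd hkk (hl0 _)
      · simp only [dif_neg h, dif_neg h'] at hkk
        exact congrArg Subtype.val (hlinj hkk)
  obtain ⟨σ, hσ⟩ : ∃ σ : Equiv.Perm (Fin (q + 1)), ∀ k, σ k = if h : k = r then l0 else l ⟨k, h⟩ :=
    ⟨Equiv.ofBijective _ (Finite.injective_iff_bijective.1 hτ), fun k => rfl⟩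
  have hbσ : b = fun k => Function.update hd l0 (tl j) (σ k) := by
    funext k
    by_cases h : k = r
    · have h1 : σ k = l0 := by rw [hσ k, dif_pos h]
      show b k = Function.update hd l0 (tl j) (σ k)
      rw [h1, Function.update_self, h, hrj]
    · have h1 : σ k = l ⟨k, h⟩ := by rw [hσ k, dif_neg h]
      show b k = Function.update hd l0 (tl j) (σ k)
      rw [h1, Function.update_of_ne (hl0 _)]
      exact hl ⟨k, h⟩
  rw [hbσ, hA _ σ, cousin_one e Ω x hc h1 l0 j, mul_zero]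
-- END co2

-- BEGIN inv
private theorem inv_det {q m : ℕ} (U : Set (E q)) (N : Fin m → Fin m → E q → ℝ)
    (hN : ∀ a j, ContDiffOn ℝ ∞ (N a j) U) :
    ContDiffOn ℝ ∞ (fun x => (Matrix.of fun a j => N a j x).det) U := by
  simp only [Matrix.det_apply]
  refine ContDiffOn.sum fun σ _ => ?_
  refine ContDiffOn.const_smul _ ?_
  simp only [Matrix.of_apply]
  exact contDiffOn_prod fun i _ => hN _ _

/-- `w i b x = ((Matrix.of fun a i => e a x i)⁻¹) i b = adjugate / det`: smooth since the determinant is smooth and positive on `U` (entries of the adjugate are determinants, `Matrix.adjugate_apply`, `Matrix.det_apply`). -/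
theorem exists_inv {q : ℕ} (U : Set (E q)) (e : Fin (q + 5) → E q → E q) (he : IsFrame U e) :
    ∃ w : Fin (q + 5) → Fin (q + 5) → E q → ℝ, (∀ i b, ContDiffOn ℝ ∞ (w i b) U) ∧
      ∀ x ∈ U, ∀ a b, ∑ i, e a x i * w i b x = if a = b then 1 else 0 := by
  classical
  have hs : ∀ a i, ContDiffOn ℝ ∞ (fun x => e a x i) U := fun a i =>
    contDiffOn_euclidean.mp (he.1 a) i
  refine ⟨fun i b x => (Matrix.of fun a i => e a x i).adjugate i b /
    (Matrix.of fun a i => e a x i).det, fun i b => ?_, fun x hx a b => ?_⟩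
  · refine ContDiffOn.div ?_ (inv_det U (fun a i x => e a x i) hs) fun x hx => (he.2 x hx).ne'
    have h1 : (fun x => (Matrix.of fun a i => e a x i).adjugate i b) =
        fun x => (Matrix.of fun a j => (if a = b then (Pi.single i (1 : ℝ) : Fin (q + 5) → ℝ) j
          else e a x j)).det := by
      funext x
      rw [Matrix.adjugate_apply]
      congr 1
      ext a j
      rw [Matrix.updateRow_apply]
      simp only [Matrix.of_apply]
    rw [h1]
    refine inv_det U (fun a j x => if a = b then (Pi.single i (1 : ℝ) : Fin (q + 5) → ℝ) j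
      else e a x j) fun a j => ?_
    by_cases hab : a = b
    · simp only [hab, if_true]
      exact contDiffOn_const
    · simp only [hab, if_false]
      exact hs a j
  · have h1 : (Matrix.of fun a i => e a x i).det ≠ 0 := (he.2 x hx).ne'
    have h2 := congrFun (congrFun (Matrix.mul_adjugate (Matrix.of fun a i => e a x i)) a) b
    rw [Matrix.mul_apply, Matrix.smul_apply, Matrix.one_apply] at h2
    simp only [Matrix.of_apply, smul_eq_mul] at h2
    have h3 : ∑ i, e a x i * ((Matrix.of fun a i => e a x i).adjugate i b /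
        (Matrix.of fun a i => e a x i).det) =
        (∑ i, e a x i * (Matrix.of fun a i => e a x i).adjugate i b) /
          (Matrix.of fun a i => e a x i).det := by
      rw [Finset.sum_div]
      exact Finset.sum_congr rfl fun i _ => by ring
    rw [h3, h2]
    field_simp
-- END inv

-- BEGIN dlt
/-- `Matrix.detRowAlternating` composed with the linear map `v ↦ (v (b r))_r`, as a continuous alternating map in finite dimension (`AlternatingMap.mkContinuous` with a bound, or `ContinuousAlternatingMap` from continuity of `MultilinearMap` in finite dimension; the determinant is transposed: `Matrix.det_transpose`). -/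
theorem exists_delta {q : ℕ} (b : Fin (q + 1) → Fin (q + 5)) : ∃ D : Form q (q + 1),
    ∀ v : Fin (q + 1) → E q, D v = (Matrix.of fun r s => v s (b r)).det := by
  classical
  let L : E q →ₗ[ℝ] (Fin (q + 1) → ℝ) :=
    LinearMap.pi fun r => ((EuclideanSpace.proj (b r) : E q →L[ℝ] ℝ) : E q →ₗ[ℝ] ℝ)
  let f : E q [⋀^Fin (q + 1)]→ₗ[ℝ] ℝ :=
    (Matrix.detRowAlternating : (Fin (q + 1) → ℝ) [⋀^Fin (q + 1)]→ₗ[ℝ] ℝ).compLinearMap L
  have hf : ∀ v, f v = (Matrix.of fun s r => v s (b r)).det := fun v => rfl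
  have hc : Continuous fun v : Fin (q + 1) → E q => f v := by
    simp only [hf]
    refine Continuous.matrix_det ?_
    refine continuous_matrix fun s r => ?_
    exact (EuclideanSpace.proj (b r) : E q →L[ℝ] ℝ).continuous.comp (continuous_apply s)
  refine ⟨{ f with cont := hc }, fun v => ?_⟩
  rw [← Matrix.det_transpose]
  exact hf v
-- END dlt

-- BEGIN cof
/-- `Ω' x = ∑ b, (∏ r, w (b r) (hd r) x) • D b` with rows inv, dlt. By multilinearity of the determinant in the rows `Ω' x v = det (fun r s => ∑ i, v s i * w i (hd r) x)` (`Matrix.det_apply'`, `Finset.prod_univ_sum`, or `MultilinearMap.map_sum`), so it is decomposable with `θ r = ∑ i, w i (hd r) x • proj i`, and for `v s = e (b s) x` the entries are `if b s = hd r then 1 else 0` by row inv. -/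
theorem exists_coframe {q : ℕ} (U : Set (E q)) (e : Fin (q + 5) → E q → E q)
    (he : IsFrame U e) : ∃ Ω' : E q → Form q (q + 1), ContDiffOn ℝ ∞ Ω' U ∧
      IsDecomposable U Ω' ∧ ∀ x ∈ U, ∀ b : Fin (q + 1) → Fin (q + 5),
        Ω' x (fun r => e (b r) x) = vN b := by
  classical
  obtain ⟨w, hw, hw1⟩ := exists_inv U e he
  choose D hD using fun b : Fin (q + 1) → Fin (q + 5) => exists_delta (q := q) b
  have key : ∀ (x : E q) (v : Fin (q + 1) → E q),
      (∑ b : Fin (q + 1) → Fin (q + 5), (∏ r, w (b r) (hd r) x) • D b) v =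
        (Matrix.of fun r s => ∑ i, w i (hd r) x * v s i).det := by
    intro x v
    have h1 : (Matrix.of fun r s : Fin (q + 1) => ∑ i, w i (hd r) x * v s i).det =
        Matrix.detRowAlternating (R := ℝ) (n := Fin (q + 1))
          (fun r => ∑ i, w i (hd r) x • (fun s : Fin (q + 1) => v s i)) := by
      refine congrArg Matrix.det ?_
      ext r s
      simp [Finset.sum_apply]
    have h2 := (Matrix.detRowAlternating (R := ℝ) (n := Fin (q + 1))).toMultilinearMap.map_sum
      (fun (r : Fin (q + 1)) (i : Fin (q + 5)) =>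
        w i (hd r) x • (fun s : Fin (q + 1) => v s i))
    have h3 : ∀ b : Fin (q + 1) → Fin (q + 5),
        (Matrix.detRowAlternating (R := ℝ) (n := Fin (q + 1))).toMultilinearMap
          (fun r => w (b r) (hd r) x • (fun s : Fin (q + 1) => v s (b r))) =
        (∏ r, w (b r) (hd r) x) * (Matrix.of fun r s : Fin (q + 1) => v s (b r)).det := by
      intro b
      exact (Matrix.detRowAlternating (R := ℝ) (n := Fin (q + 1))).toMultilinearMap.map_smul_univ
        (fun r => w (b r) (hd r) x) (fun r => fun s : Fin (q + 1) => v s (b r))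
    rw [h1]
    refine Eq.trans ?_ h2.symm
    rw [ContinuousAlternatingMap.sum_apply]
    refine Finset.sum_congr rfl fun b _ => ?_
    rw [h3 b, ContinuousAlternatingMap.smul_apply, hD b v, smul_eq_mul]
  refine ⟨fun x => ∑ b : Fin (q + 1) → Fin (q + 5), (∏ r, w (b r) (hd r) x) • D b, ?_, ?_, ?_⟩
  · refine ContDiffOn.sum fun b _ => ?_
    have h5 : ContDiffOn ℝ ∞ (fun x => ∏ r, w (b r) (hd r) x) U :=
      contDiffOn_prod fun r _ => hw (b r) (hd r)
    exact h5.smul contDiffOn_const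
  · intro x _
    refine ⟨fun r => ∑ i, w i (hd r) x • (EuclideanSpace.proj i : E q →L[ℝ] ℝ), fun v => ?_⟩
    rw [key x v]
    refine congrArg Matrix.det ?_
    ext r s
    simp
  · intro x hx b
    rw [key x, vN]
    refine congrArg Matrix.det ?_
    ext r s
    have h4 := hw1 x hx (b s) (hd r)
    simp only [Matrix.of_apply]
    rw [← h4]
    exact Finset.sum_congr rfl fun i _ => mul_comm _ _
-- END cof

end Pool.Agent.Oae
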